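import Pool.Agent.Q292.LC.Stm1

/-!
# Project LC, statements 3: the walk in an environment of sparse particles on the torus

Throughout `V = Fin d → ZMod L`, `e = ed ∘ σ` with `Per σ`: one sweep are the `ms d L` steps
`[i ms, (i+1) ms)`, in which every edge occurs exactly once; a unit are `q` sweeps; `1 ≤ δ q ≤ 2`.
`L ≥ 3`, so every site is on exactly `2 d` edges, the two end points of an edge are different, at
`td`-distance `1`, and `td` is a metric (`td x z ≤ td x y + td y z`, symmetric, translation invariant).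
-/

set_option autoImplicit false

namespace Q292.LC

open Finset Equiv Matrix

section defs

variable {V : Type} [DecidableEq V] [Fintype V]

/-- free kernel of the first `k` steps -/
def PP (e : ℕ → V × V) (δ : ℝ) (k : ℕ) : Matrix V V ℝ := TT e (fun _ => false) ∅ δ k

/-- contact number: twice the expected weight of the steps at which the free walk from `x` meets
(through the edge of the step) one of the particles started in `A` -/
noncomputable def cc (e : ℕ → V × V) (ω : ℕ → Bool) (A : Finset V) (δ : ℝ) (n : ℕ) (x : V) : ℝ :=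
  2 * ∑ k ∈ Finset.range n, if tch e ω A k then
    (if ω k then 1 else δ) * (PP e δ k x (e k).1 + PP e δ k x (e k).2) else 0

/-- Evolution of a row vector in the environment, killed outside `B` after every step. -/
noncomputable def kv (e : ℕ → V × V) (ω : ℕ → Bool) (A : Finset V) (δ : ℝ) (B : Finset V)
    (g : V → ℝ) : ℕ → V → ℝ
  | 0 => g
  | n + 1 => fun y => if y ∈ B then (vecMul (kv e ω A δ B g n) (Mx e ω A δ n)) y else 0

/-- Environment of `K` units: at the unit times `0, ..., K` at most `lam` particles of `A` in balls of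
radius `r`, at most `ρ` jumps of each particle in each unit, any two particles are at distance
`≤ 3` at the start of at most `κ₀ q` sweeps. -/
def Ev {d L : ℕ} [NeZero L] (σ : ℕ → (Fin d → ZMod L) × Fin d) (q K lam r ρ κ₀ : ℕ)
    (ω : ℕ → Bool) (A : Finset (Fin d → ZMod L)) : Prop :=
  (∀ j ≤ K, ∀ v, ((A.image (gp (ed ∘ σ) ω (j * (q * ms d L)))) ∩ bal v r).card ≤ lam) ∧
  (∀ j < K, ∀ a ∈ A,
    jumps (ed ∘ σ) ω (j * (q * ms d L)) ((j + 1) * (q * ms d L)) a ≤ ρ) ∧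
  (∀ a ∈ A, ∀ b ∈ A, a ≠ b → ((Finset.range (K * q + 1)).filter fun s =>
    td (gp (ed ∘ σ) ω (s * ms d L) a) (gp (ed ∘ σ) ω (s * ms d L) b) ≤ 3).card ≤ κ₀ * q)

end defs

/-- TCH. A particle is touched at most `2 d` times per sweep and per jump.
Proof. In sweep `i` let `J_i` be the number of jumps. The sweep splits into `J_i + 1` intervals on
which the position `y` is constant (a jump happens at a touching step with coin `true`, its two end
points are different); in each of them every one of the `2 d` edges at `y` occurs at most once. So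
the number of touching steps of the sweep is `≤ 2 d (J_i + 1)`; sum over the `s` sweeps. -/
def S_TCH : Prop := ∀ (d L : ℕ) [NeZero L], 3 ≤ L → ∀ σ : ℕ → (Fin d → ZMod L) × Fin d, Per σ →
  ∀ (ω : ℕ → Bool) (s : ℕ) (x : Fin d → ZMod L),
  ((Finset.range (s * ms d L)).filter fun k => tch (ed ∘ σ) ω {x} k).card ≤
    2 * d * (s + jumps (ed ∘ σ) ω 0 (s * ms d L) x)

/-- KIL. The killed evolution loses little mass.
Proof. (1) `0 ≤ kv ≤ row z of TT` by induction, `kv` vanishes outside the ball (for `n > 0`; for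
`n = 0` it is `single z 1`). (2) Let `a = 1 + 2 e δ` (`e` Euler's number, `δ` so small that
`a^(2d) ≤ 4/3`), `s_k = k / ms`, `c_k(y) =` number of the steps in `[s_k ms, k)` whose edge contains `y`
(`≤ 2 d`), `Φ_k(y) = exp (td z y) a^(-(2 d s_k + c_k y))`. Let `m_k` be the mass killed in step `k` and
`W_k = ∑ y, kv_k y Φ_k y + ∑_{k' < k} m_{k'} exp (R + 1) a^(-2 d (s_{k'} + 1))`. Then
`Φ_{k+1} ≤ Φ_k` everywhere, and `Φ_{k+1}(y) ≤ Φ_k(y) / a` for the two end points of step `k` (in both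
cases also when a new sweep starts, because `c_k ≤ 2 d`). Free step with end points `p, p'`: the mass
`g` of `p` contributes after the step at most
`g Φ_k(p) ((1 - δ)/a + δ e a^(2 d)) ≤ g Φ_k(p)` (moved mass: `Φ_{k+1}(p') ≤ e a^(2d) Φ_k(p)`; if
`p'` is outside the ball the moved mass is killed, and `exp (R+1) a^(-2d(s+1)) ≤ Φ_{k+1}(p')`).
So `W_{k+1} ≤ W_k`. The same for a touched step with coin `false`, and for a touched step with coin
`true` whose edge does not meet the ball (the killed evolution has no mass there). If the edge meets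
the ball, `W_{k+1} ≤ e a^(2d) W_k ≤ e^2 W_k`. As `W_0 = 1`: `W_n ≤ e^(2 N)`, so the killed mass is at
most `exp (2 N - R - 1) a^(2 d (u q + 1)) ≤ exp (2 N - R + 4 e d (2 u + 1))`. For `u = 0` no mass is
killed. -/
def S_KIL : Prop := ∀ d : ℕ, 1 ≤ d → ∃ C : ℝ, 1 ≤ C ∧ ∀ (L : ℕ) [NeZero L], 3 ≤ L →
  ∀ σ : ℕ → (Fin d → ZMod L) × Fin d, Per σ → ∀ (ω : ℕ → Bool) (A : Finset (Fin d → ZMod L))
  (δ : ℝ) (q u R : ℕ) (z : Fin d → ZMod L), 0 < δ → C * δ ≤ 1 → δ * q ≤ 2 →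
  (∀ y, 0 ≤ kv (ed ∘ σ) ω A δ (bal z R) (Pi.single z 1) (u * (q * ms d L)) y ∧
    kv (ed ∘ σ) ω A δ (bal z R) (Pi.single z 1) (u * (q * ms d L)) y ≤
      TT (ed ∘ σ) ω A δ (u * (q * ms d L)) z y ∧
    (kv (ed ∘ σ) ω A δ (bal z R) (Pi.single z 1) (u * (q * ms d L)) y ≠ 0 → td z y ≤ R)) ∧
  1 - ∑ y, kv (ed ∘ σ) ω A δ (bal z R) (Pi.single z 1) (u * (q * ms d L)) y ≤
    Real.exp (C * (u + ((Finset.range (u * (q * ms d L))).filter fun k => ω k = true ∧
      tch (ed ∘ σ) ω A k ∧ ((ed (σ k)).1 ∈ bal z R ∨ (ed (σ k)).2 ∈ bal z R)).card) - R)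

/-- SWD. Decrease of the square norm in one sweep without particle moves near the support.
Proof. Write `g_k = kv .. k`, `B = bal z R`, `v_k f = f (e k).1 - f (e k).2`. (1) For a free step the
vector `h = g_k ᵥ* fr δ (e k)` satisfies `∑ h² = ∑ g_k² - 2 δ (1 - δ) (v_k g_k)²`, and killing decreases
it; the other steps do not increase the norm (permutation matrices). So
`∑ g² - ∑ g_ms² ≥ 2 δ (1 - δ) ∑_{k free} (v_k g_k)²`. (2) Edges `i` without a point of `A` and with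
an end point in `B` (for all other `i` the term of the sum is `0`, `g` vanishes outside `B`): both end
points are in `bal z (R + 1)`, no particle of `A` enters, leaves or moves inside this ball during the
sweep (a move is a touched step with coin `true` and would have an end point in the ball), so the
step `k` of the sweep with edge `i` is free. The values of `g_j` at the end points of the edge are
changed before step `k` only by free steps `j < k` which share an end point with the edge, each by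
at most `δ |v_j g_j|` (outside `B` the value is always `0`). So
`|v_k g| ≤ |v_k g_k| + δ ∑_{j ~ k} |v_j g_j|`, with at most `4 d` indices `j ~ k`, and each `j` is
counted for at most `4 d` indices `k`. Hence
`∑ (v_k g)² ≤ 2 ∑ (v_k g_k)² + 2 δ² (4 d) (4 d) ∑_{j free} (v_j g_j)² ≤ 3 ∑_{j free} (v_j g_j)²`.
(3) `2 δ (1 - δ) / 3 ≥ δ / 2`. -/
def S_SWD : Prop := ∀ (d L : ℕ) [NeZero L], 1 ≤ d → 3 ≤ L →
  ∀ σ : ℕ → (Fin d → ZMod L) × Fin d, Per σ → ∀ (ω : ℕ → Bool) (A : Finset (Fin d → ZMod L))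
  (δ : ℝ) (z : Fin d → ZMod L) (R : ℕ) (g : (Fin d → ZMod L) → ℝ), 0 < δ → 16 * d * δ ≤ 1 →
  (∀ y, 0 ≤ g y) → (∀ y, y ∉ bal z R → g y = 0) → (∀ y ∈ A, g y = 0) →
  (∀ k < ms d L, ω k = true → tch (ed ∘ σ) ω A k →
    (ed (σ k)).1 ∉ bal z (R + 1) ∧ (ed (σ k)).2 ∉ bal z (R + 1)) →
  ∑ y, (kv (ed ∘ σ) ω A δ (bal z R) g (ms d L) y) ^ 2 +
    δ / 2 * ∑ i : (Fin d → ZMod L) × Fin d, (if (ed i).1 ∉ A ∧ (ed i).2 ∉ A then
      (g (ed i).1 - g (ed i).2) ^ 2 else 0) ≤ ∑ y, (g y) ^ 2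

/-- NA1. One-dimensional Nash inequality among separated holes.
Proof. Let `y` be a point with maximal `g y = M`; we may assume `M > 0`, so `y ∈ bal z R`, `y ∉ H`. Walk
from `y` along the line `y + j e_0`, `j = 0, 1, ...`. If the next point of the line is a hole `h`, make
the detour `h - e_0, h - e_0 + e_1, h + e_1, h + e_0 + e_1, h + e_0`. Stop at the first point outside
`bal z R` (it comes at the latest for `j = 2 R + 1`, because `4 R + 8 ≤ L`). All points before the last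
one are in `bal z R`, so every hole met is in `bal z (R + 1)`, the points of its detour are at
distance `≤ 2` from it and so in `bal z (R + 3)`, and they are no holes by the separation. So the path
`y = p_0, ..., p_N` uses only edges without holes, it has no repeated point (two holes on the line
have distance `> 3`) and `g p_N = 0`. Then `M² = ∑ (g(p_i)² - g(p_{i+1})²) ≤
∑ |g p_i - g p_{i+1}| (g p_i + g p_{i+1}) ≤ √E √(2 ∑ (g(p_i)² + g(p_{i+1})²)) ≤ 2 √E ‖g‖₂` with `E` the sum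
over the edges. And `‖g‖₂² ≤ M ‖g‖₁`, so `‖g‖₂^8 ≤ M⁴ ‖g‖₁⁴ ≤ 4 E ‖g‖₂² ‖g‖₁⁴`. (A simpler variant
without simple paths, which is enough for the constant 100: put `ĝ(p) = g(p + e_1)` for holes `p` on the
line and `ĝ = g` otherwise; every difference of `ĝ` along the line is a sum of at most three
differences of `g` along hole free edges, and each edge is used at most three times.) -/
def S_NA1 : Prop := ∀ (d L : ℕ) [NeZero L], 2 ≤ d → ∀ (z : Fin d → ZMod L) (R : ℕ),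
  4 * R + 8 ≤ L → ∀ (H : Finset (Fin d → ZMod L)) (g : (Fin d → ZMod L) → ℝ), (∀ y, 0 ≤ g y) →
  (∀ y, y ∉ bal z R → g y = 0) → (∀ y ∈ H, g y = 0) →
  (∀ h ∈ H ∩ bal z (R + 3), ∀ h' ∈ H ∩ bal z (R + 3), h ≠ h' → 3 < td h h') →
  (∑ y, (g y) ^ 2) ^ 3 ≤ 100 * (∑ y, g y) ^ 4 *
    ∑ i : (Fin d → ZMod L) × Fin d, (if (ed i).1 ∉ H ∧ (ed i).2 ∉ H then
      (g (ed i).1 - g (ed i).2) ^ 2 else 0)

/-- SMO. Smoothing near the particles.
Proof. Let `n = u q ms`, `B = bal z R`, `g_k = kv .. k` from `single z 1`. Only the particles `a ∈ A`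
with `td z a ≤ R + ρ u + 4` come into `bal z (R + 3)` during the `u` units (each jump moves by `1`), there
are at most `lam` of them, with at most `ρ u` jumps each; so `N ≤ lam ρ u` in KIL and (choice of the
constant in `h5`) the lost mass is `≤ exp (-u)`. A sweep is nice if it contains no touched step with
coin `true` which meets `bal z (R + 1)` and if at its start no two particles in `bal z (R + 3)` have
distance `≤ 3`. The first condition fails for at most `lam ρ u ≤ u q / 4` sweeps, the second for at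
most `lam² κ₀ q ≤ u q / 4` sweeps. Let `y_s = ∑ (g at the start of sweep s)²`; it is nonincreasing
(`Mx` is doubly stochastic). In a nice sweep SWD (for the circuit shifted to the start of the
sweep; `g` vanishes at the particles by BAS2) and NA1 with `H` = positions of the particles at the
start give `y_{s+1} ≤ y_s - (δ/200) y_s³` (`∑ g ≤ 1`), so `y_{s+1}^(-2) ≥ y_s^(-2) + δ/200`
(if `y_{s+1} > 0`). Over `≥ u q / 2` nice sweeps: `y^(-2) ≥ δ u q / 400 ≥ u / 400`, `y ≤ 20 / √u`. -/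
def S_SMO : Prop := ∀ d : ℕ, 2 ≤ d → ∃ C : ℕ, 1 ≤ C ∧ ∀ (L : ℕ) [NeZero L], 3 ≤ L →
  ∀ σ : ℕ → (Fin d → ZMod L) × Fin d, Per σ → ∀ (ω : ℕ → Bool) (A : Finset (Fin d → ZMod L))
  (δ : ℝ) (q u R lam ρ κ₀ : ℕ) (z : Fin d → ZMod L), 0 < δ → C * δ ≤ 1 → 1 ≤ δ * q → δ * q ≤ 2 →
  z ∉ A → 1 ≤ u → (A ∩ bal z (R + ρ * u + 4)).card ≤ lam →
  (∀ j < u, ∀ a ∈ A, jumps (ed ∘ σ) ω (j * (q * ms d L)) ((j + 1) * (q * ms d L)) a ≤ ρ) →
  (∀ a ∈ A, ∀ b ∈ A, a ≠ b → ((Finset.range (u * q)).filter fun s =>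
    td (gp (ed ∘ σ) ω (s * ms d L) a) (gp (ed ∘ σ) ω (s * ms d L) b) ≤ 3).card ≤ κ₀ * q) →
  4 * lam ^ 2 * κ₀ ≤ u → 4 * lam * ρ ≤ q → C * (lam * ρ + 1) * u ≤ R → 4 * R + 8 ≤ L →
  ∃ g : (Fin d → ZMod L) → ℝ, (∀ y, 0 ≤ g y ∧ g y ≤ TT (ed ∘ σ) ω A δ (u * (q * ms d L)) z y ∧
    (g y ≠ 0 → td z y ≤ R)) ∧ ∑ y, (g y) ^ 2 ≤ 20 / Real.sqrt u ∧ 1 - ∑ y, g y ≤ Real.exp (-(u : ℝ))

/-- CON1. Duhamel: the kernel in the environment and the free kernel.
Proof. Telescoping: `PP n - TT n = ∑_{k<n} PP_k (fr δ (e k) - Mx k) (product of Mx over (k, n))`; only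
touched steps contribute. For a row vector `v ≥ 0`, `v (fr - 1) = δ v (pm swap - 1)` and
`v (fr - pm swap) = (1 - δ) v (1 - pm swap)` have `ℓ¹` norm `≤ 2 δ (v p + v p')`, resp. `≤ 2 (v p + v p')`,
`p, p'` the end points; multiplication by a stochastic matrix does not increase the `ℓ¹` norm. Take
`v =` row `x` of `PP_k`. (Or by induction on `n`.) -/
def S_CON1 : Prop := ∀ (V : Type) [Fintype V] [DecidableEq V] (e : ℕ → V × V) (ω : ℕ → Bool)
  (A : Finset V) (δ : ℝ) (n : ℕ) (x : V), 0 ≤ δ → δ ≤ 1 →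
  ∑ y, |PP e δ n x y - TT e ω A δ n x y| ≤ cc e ω A δ n x

/-- CON2. Sum of the contact numbers over a ball.
Proof. A touched step touches some `a ∈ A`, so
`cc x ≤ 2 ∑_{a ∈ A} ∑_{j < u} ∑_{k in unit j touches a} w_k (PP_k x p_k + PP_k x p_k')`, `w_k = 1` if
`ω k`, else `δ` (`p_k, p_k'` the end points). Let `J ≤ ρ` be the number of jumps of `a` in unit `j`. By TCH
(for the circuit shifted to the start of the unit, see BAS1 (1)) `∑_k w_k ≤ J + δ 2 d (q + J) ≤
2 ρ + 4 d` (`2 d δ ≤ 1`). If the position of `a` at the start of the unit is in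
`bal z (B + D + ρ + 1)` use `∑_{x} PP_k x p ≤ 1` (column sums). Otherwise the position of `a` during the
unit always has distance `> B + D + 1` from `z`, so the end points of the touching steps have
distance `> B + D` from `z` and `> D` from every `x ∈ bal z B`: `∑_{x ∈ bal z B} PP_k x p ≤ τ`. -/
def S_CON2 : Prop := ∀ (d L : ℕ) [NeZero L], 1 ≤ d → 3 ≤ L →
  ∀ σ : ℕ → (Fin d → ZMod L) × Fin d, Per σ → ∀ (ω : ℕ → Bool) (A : Finset (Fin d → ZMod L))
  (δ τ : ℝ) (q u ρ B D : ℕ) (z : Fin d → ZMod L), 0 < δ → 2 * d * δ ≤ 1 → δ * q ≤ 2 → 0 ≤ τ →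
  (∀ j < u, ∀ a ∈ A, jumps (ed ∘ σ) ω (j * (q * ms d L)) ((j + 1) * (q * ms d L)) a ≤ ρ) →
  (∀ k ≤ u * (q * ms d L), ∀ y, ∑ x ∈ univ.filter (fun x => D < td x y),
    PP (ed ∘ σ) δ k x y ≤ τ) →
  ∑ x ∈ bal z B, cc (ed ∘ σ) ω A δ (u * (q * ms d L)) x ≤
    (8 * ρ + 16 * d) * ∑ j ∈ Finset.range u,
      (((A.image (gp (ed ∘ σ) ω (j * (q * ms d L)))) ∩ bal z (B + D + ρ + 1)).card + τ * A.card)

/-- NEA. Decrease of the square norm in a window, and energy, in terms of near pairs.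
Proof. `T = TT e ω A δ n` is doubly stochastic (BAS2). For `x ∉ Dm` (so `x ∉ A`, `cc x ≤ ε`) the number
of `y` with `PP x y - T x y > p / 2` is at most `2 ε / p` by CON1. Let `x, x' ∉ Dm`, `td x x' ≤ ℓ`. For all
`y ∈ bal x ℓ` we have `PP x y, PP x' y ≥ p`; so for at least `|bal x ℓ| - 4 ε / p ≥ |bal x ℓ| / 2` of them
`T x y ≥ p / 2` and `T x' y ≥ p / 2` (`|bal x ℓ|` does not depend on `x`). Hence
`(T Tᵀ) x x' ≥ |bal| p² / 8`. (1) `∑ f² - ∑ (f ᵥ* T)² = (1/2) ∑_{x,x'} (T Tᵀ) x x' (f x - f x')²`, because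
`T Tᵀ` is symmetric with row sums `1`. (2) With the set `Y` of these `y`, for near `x, x' ∉ Dm`:
`(f x - f x')² ≤ (2/|Y|) ∑_{y ∈ Y} ((f x - f y)² + (f x' - f y)²) ≤ (4/|bal|) (2/p) ∑_y (T x y (f x - f y)² +
T x' y (f x' - f y)²)`; sum over the pairs, each `x` has at most `|bal|` partners:
`≤ (16 / p) ∑_{x,y} T x y (f x - f y)²`. -/
def S_NEA : Prop := ∀ (d L : ℕ) [NeZero L], 1 ≤ d → 3 ≤ L →
  ∀ σ : ℕ → (Fin d → ZMod L) × Fin d, Per σ → ∀ (ω : ℕ → Bool)
  (A Dm : Finset (Fin d → ZMod L)) (δ ε p : ℝ) (n ℓ : ℕ), 0 ≤ δ → δ ≤ 1 → 0 < p → 0 ≤ ε →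
  (∀ x y, td x y ≤ 2 * ℓ → p ≤ PP (ed ∘ σ) δ n x y) →
  (∀ x, x ∉ Dm → x ∉ A ∧ cc (ed ∘ σ) ω A δ n x ≤ ε) →
  8 * ε ≤ p * (bal (0 : Fin d → ZMod L) ℓ).card → ∀ f : (Fin d → ZMod L) → ℝ,
  (∑ x, (vecMul f (TT (ed ∘ σ) ω A δ n) x) ^ 2 +
    p ^ 2 * (bal (0 : Fin d → ZMod L) ℓ).card / 16 *
      ∑ x, ∑ y, (if x ∉ Dm ∧ y ∉ Dm ∧ td x y ≤ ℓ then (f x - f y) ^ 2 else 0) ≤ ∑ x, (f x) ^ 2) ∧
  p / 16 * ∑ x, ∑ y, (if x ∉ Dm ∧ y ∉ Dm ∧ td x y ≤ ℓ then (f x - f y) ^ 2 else 0) ≤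
    ∑ x, ∑ y, TT (ed ∘ σ) ω A δ n x y * (f x - f y) ^ 2

/-- POI. Poincaré inequality in a box for near pairs, off a set `Dm` which fills at most half of
every box of side `r`.
Proof. Split `box z (M r)` (`M r ≤ L`) into the `M^d` boxes `Q_α`, `α ∈ {0..M-1}^d`, of side `r`;
`G_α = Q_α \ Dm` has at least `r^d / 2` points. For `α, β` take the path `α = α_0, ..., α_l = β` which
changes the coordinates one after the other by steps `±1` in the order `0, 1, ..., d - 1`;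
`l ≤ d M`. For `x ∈ G_α`, `y ∈ G_β` and `x_i ∈ G_{α_i}` (`0 < i < l`), `x_0 = x`, `x_l = y`:
`(f x - f y)² ≤ l ∑ (f x_i - f x_{i+1})²`; average over the `x_i`:
`∑_{x ∈ G_α, y ∈ G_β} (f x - f y)² ≤ d M |G_α| |G_β| ∑_i avg_{G_{α_i} × G_{α_{i+1}}} (f - f)² ≤
d M r^(2d) ∑_i (4 / r^(2d)) ∑_{G_{α_i} × G_{α_{i+1}}} (f x - f y)²` (for `α = β` directly). A given pair of
neighbouring boxes is used by at most `M^(d+1)` pairs `(α, β)` (in the path which changes
coordinate `i`, the coordinates `< i` are those of `β`, the others `> i` those of `α`: `M^(d-1)` choices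
times `M²` for the coordinates `i` of `α, β`). Points of equal or neighbouring boxes have distance
`≤ 2 d r`. Total: `C M^(d+2)` with `C = 4 d + 1` times a factor `2` or so. -/
def S_POI : Prop := ∀ d : ℕ, 1 ≤ d → ∃ C : ℝ, 1 ≤ C ∧ ∀ (L : ℕ) [NeZero L] (r M : ℕ),
  1 ≤ r → 1 ≤ M → M * r ≤ L → ∀ (z : Fin d → ZMod L) (Dm : Finset (Fin d → ZMod L)),
  (∀ v, 2 * (Dm ∩ box v r).card ≤ r ^ d) → ∀ f : (Fin d → ZMod L) → ℝ,
  ∑ x ∈ box z (M * r) \ Dm, ∑ y ∈ box z (M * r) \ Dm, (f x - f y) ^ 2 ≤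
    C * M ^ (d + 2) * ∑ x ∈ box z (M * r) \ Dm, ∑ y ∈ box z (M * r) \ Dm,
      if td x y ≤ 2 * d * r then (f x - f y) ^ 2 else 0

/-- NAS. Nash inequality off a sparse set.
Proof. For a box `Q = box z (M r)`, `N = |Q \ Dm| ≥ (M r)^d / 2` (it is a union of `M^d` boxes of side
`r`), `N ∑_{Q \ Dm} f² = (1/2) ∑_{x,y ∈ Q \ Dm} (f x - f y)² + (∑_{Q \ Dm} f)²`. Use POI, and sum over all
`z`: every `x` is in exactly `(M r)^d` of the boxes, every pair in at most `(M r)^d`, and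
`∑_z (∑_{Q} f)² ≤ ∑_z (∑_Q f) (∑ f) = (M r)^d (∑ f)²` because `f ≥ 0`. Divide by `(M r)^d`:
`∑_{x ∉ Dm} f² ≤ (2 / (M r)^d) ((C/2) M^(d+2) E + (∑ f)²)`. -/
def S_NAS : Prop := ∀ d : ℕ, 1 ≤ d → ∃ C : ℝ, 1 ≤ C ∧ ∀ (L : ℕ) [NeZero L] (r M : ℕ),
  1 ≤ r → 1 ≤ M → M * r ≤ L → ∀ Dm : Finset (Fin d → ZMod L),
  (∀ v, 2 * (Dm ∩ box v r).card ≤ r ^ d) → ∀ f : (Fin d → ZMod L) → ℝ, (∀ x, 0 ≤ f x) →
  ∑ x ∈ univ \ Dm, (f x) ^ 2 ≤
    C * M ^ 2 / r ^ d * ∑ x, ∑ y, (if x ∉ Dm ∧ y ∉ Dm ∧ td x y ≤ 2 * d * r then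
      (f x - f y) ^ 2 else 0) + C / ((M * r : ℕ) : ℝ) ^ d * (∑ x, f x) ^ 2

end Q292.LC
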