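import Pool.Agent.Q292.LC.Defs

/-!
# Project LC, statements 1: circuits, determinants, marked cycles

General conventions: `0 ≤ δ ≤ 1`; all sets are finite sets of sites; `gp e ω n` is the permutation
of the circuit, `pm` its matrix, `TT e ω A δ n` the transition matrix of the walk in the environment
of the particles started in `A`. Each statement may be used as a hypothesis by the later ones.
-/

set_option autoImplicit false

namespace Q292.LC

open Finset Equiv Matrix

/-- BAS1. Basic facts on circuits.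
Proof. (1) induction on `n` (`gp` multiplies on the left). (2) `pm g * pm h = pm (h * g)`.
(3) by induction: if `ω, ω'` agree on all steps `< n` which touch `A` then `gp e ω k a = gp e ω' k a`
for all `k ≤ n`, `a ∈ A`, and `tch e ω A k ↔ tch e ω' A k` for `k < n`: a step which does not touch
`a` does not move it, and if it touches it the coins agree. -/
def S_BAS1 : Prop := ∀ (V : Type) [Fintype V] [DecidableEq V] (e : ℕ → V × V) (ω : ℕ → Bool),
  (∀ i n, gp e ω (i + n) = gp (sh i e) (sh i ω) n * gp e ω i) ∧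
  (∀ g h : Perm V, pm g * pm h = pm (h * g)) ∧
  (∀ (A : Finset V) (n : ℕ) (ω' : ℕ → Bool), (∀ k < n, tch e ω A k → ω k = ω' k) →
    (∀ k ≤ n, ∀ a ∈ A, gp e ω k a = gp e ω' k a) ∧ (∀ k < n, (tch e ω A k ↔ tch e ω' A k)))

/-- BAS2. Basic facts on the walk in an environment.
Proof. Inductions on `n`. `Mx` is a nonnegative matrix with row and column sums `1` (it is a convex
combination of permutation matrices). For `x ∈ A` the walk follows the particle, because a step
which touches the particle is deterministic and other steps which touch `A` do not move the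
particle (also a free step does not contain its position). So for `y` in the image of `A` the
column `y` has its whole mass `1` in the row of the particle, the other rows vanish there. -/
def S_BAS2 : Prop := ∀ (V : Type) [Fintype V] [DecidableEq V] (e : ℕ → V × V) (ω : ℕ → Bool)
  (A : Finset V) (δ : ℝ), 0 ≤ δ → δ ≤ 1 →
  (∀ n x y, 0 ≤ TT e ω A δ n x y) ∧ (∀ n x, ∑ y, TT e ω A δ n x y = 1) ∧
  (∀ n y, ∑ x, TT e ω A δ n x y = 1) ∧
  (∀ n, ∀ x ∈ A, ∀ y, TT e ω A δ n x y = if gp e ω n x = y then 1 else 0) ∧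
  (∀ n, ∀ x, x ∉ A → ∀ y ∈ A.image (gp e ω n), TT e ω A δ n x y = 0) ∧
  (∀ i n, TT e ω A δ (i + n) =
    TT e ω A δ i * TT (sh i e) (sh i ω) (A.image (gp e ω i)) δ n)

/-- BAS3. Basic facts on expectations over the coins.
Proof. (1) `Finset.prod_add` or the binomial theorem: `∑ S δ^|S| (1-δ)^(n-|S|) = 1`. (2)(3)(4)
linearity and monotonicity of a finite sum with nonnegative weights. (5) split the subsets of
`range (n + 1)` into `S` and `insert n S` with `S ⊆ range n`. (6) rotation is a bijection of the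
subsets of `range n` which preserves the cardinality (`rot n s` of the indicator of `S` is the
indicator of `{k < n : (k + s) % n ∈ S}`). (7) if `F` and `G` agree on all `ω` with `ω k = false` for
`k ≥ n`, they have the same expectation. -/
def S_BAS3 : Prop := ∀ (n : ℕ) (δ : ℝ), 0 ≤ δ → δ ≤ 1 →
  (∀ c : ℝ, EE n δ (fun _ => c) = c) ∧
  (∀ F G, EE n δ (fun ω => F ω + G ω) = EE n δ F + EE n δ G) ∧
  (∀ (c : ℝ) F, EE n δ (fun ω => c * F ω) = c * EE n δ F) ∧
  (∀ F G, (∀ ω, F ω ≤ G ω) → EE n δ F ≤ EE n δ G) ∧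
  (∀ F, EE (n + 1) δ F = (1 - δ) * EE n δ F + δ * EE n δ (fun ω => F (Function.update ω n true))) ∧
  (∀ (s : ℕ) F, 0 < n → EE n δ (fun ω => F (rot n s ω)) = EE n δ F) ∧
  (∀ F G : (ℕ → Bool) → ℝ, (∀ ω, (∀ k, n ≤ k → ω k = false) → F ω = G ω) → EE n δ F = EE n δ G)

/-- ROT. The rotated circuit. Let the circuit have period `u`, length `n = K u`, and let `s = j u`
with `j ≤ K`. After `i u` steps, `i + j ≤ K`, the particle at `gp e ω s x` of the rotated circuit is
where the particle `x` of the original circuit is after `s + i u` steps; after the wrap the particle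
continues as the particle `gp e ω n x` from time `0`.
Proof. `e (k + s) = e k`. For `k < n - s`: `rot n s ω k = ω (k + s)`, so by BAS1 (1)
`gp e ω (s + k) = gp e (rot n s ω) k * gp e ω s` for `k ≤ n - s` (note `sh s e = e`). For
`k = n - s + k'` with `k' < s`: `rot n s ω k = ω k'` and `e k = e k'` (as `n - s` is a multiple of the
period), so again by BAS1 (1) `gp e (rot n s ω) (n - s + k') = gp e ω k' * gp e (rot n s ω) (n - s)`.
The third line: `k' = s`, `gp e (rot) n = gp e ω s * (gp e ω n * (gp e ω s)⁻¹)`. -/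
def S_ROT : Prop := ∀ (V : Type) [Fintype V] [DecidableEq V] (e : ℕ → V × V) (u K j : ℕ),
  0 < u → j ≤ K → (∀ k, e (k + u) = e k) → ∀ ω : ℕ → Bool,
  (∀ k ≤ K * u - j * u, gp e (rot (K * u) (j * u) ω) k * gp e ω (j * u) = gp e ω (j * u + k)) ∧
  (∀ k ≤ j * u, gp e (rot (K * u) (j * u) ω) (K * u - j * u + k) * gp e ω (j * u) =
    gp e ω k * gp e ω (K * u)) ∧
  gp e (rot (K * u) (j * u) ω) (K * u) =
    gp e ω (j * u) * gp e ω (K * u) * (gp e ω (j * u))⁻¹

/-- L1. THE EXACT IDENTITY: given the trajectories of the particles of `A`, the mean of a determinant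
which is affine in the permutation matrix is the determinant with the transition matrix of the walk
in the environment.
Proof. (a) Resampling. For coins `ω, η` let `m(ω, η) k = ω k` if `tch e ω A k` and `η k` otherwise. By
induction on the steps (BAS1 (3)) `tch e (m ω η) A k ↔ tch e ω A k` for `k < n`, and
`E_ω E_η F(m(ω, η)) = E_ω F(ω)` for every `F` of the first `n` coins: conditioning step by step, the
decision whether step `k` is touched depends only on the coins `< k`. (Formally, induction on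
`n` with BAS3 (5): more generally for every family of predicates `T k ω` which depends only on
`m(ω, η)` restricted to the steps `< k`; or: expand both expectations as sums over pairs of
subsets of `range n` and use the weight preserving involution which exchanges the coins `ω k` and
`η k` for all `k` not touched: `(ω, η) ↦ (m(ω, η), m'(ω, η))`, `m' k = η k` if touched, `ω k` if not.)
(b) So `E_ω [Θ det (X + Y pm g)] = E_ω [Θ(ω) E_η det (X(ω) + Y(ω) pm (gp e m(ω, η) n))]`, because `Θ, X, Y`
take the same value at `m(ω, η)` as at `ω` (`Rmeas`).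
(c) For fixed `ω`, `pm (gp e (m ω η) n)` is the product over `k < n` of `B_k` if `k` is touched, with
`B_k = pm (swap ..)` or `1` according to `ω k`, and of `1 + 1[η k] (pm (swap ..) - 1)` if not
(BAS1 (2)). As `pm (swap a b) - 1 = - u uᵀ`, `u = e_a - e_b`, has rank `≤ 1`, the map
`s ↦ det (X + Y C (1 + s (pm (swap) - 1)) D)` is affine in `s` (Pool.Agent.Q289.DI.det_line), so the mean
over `η k` is its value at `s = δ`: replace the factors one after the other (induction on `n`
with BAS3 (5), for the statement with an arbitrary matrix `D` on the right). The result is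
`det (X + Y * TT)`. -/
def S_L1 : Prop := ∀ (V : Type) [Fintype V] [DecidableEq V] (e : ℕ → V × V) (n : ℕ) (δ : ℝ)
  (A : Finset V) (Θ : (ℕ → Bool) → ℝ) (X Y : (ℕ → Bool) → Matrix V V ℝ), 0 ≤ δ → δ ≤ 1 →
  Rmeas e n A Θ → Rmeas e n A X → Rmeas e n A Y →
  EE n δ (fun ω => Θ ω * (X ω + Y ω * pm (gp e ω n)).det) =
  EE n δ (fun ω => Θ ω * (X ω + Y ω * TT e ω A δ n).det)

/-- GRN. Bordered determinant and Green function.
Proof. Let `S = dg U * T`; its entries are `≥ 0`, its row sums `≤ 1`, `0 ≤ w < 1`, so `M = 1 - w S` is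
invertible with `M⁻¹ = ∑ w^k S^k` (Neumann series; the partial sums `P_N = ∑_{k<N} w^k S^k` satisfy
`M P_N = 1 - w^N S^N` and the entries of `w^N S^N` are `≤ w^N`), and `det M > 0` (`det (1 - s w S)` has
no zero for `s ∈ [0, 1]`: strictly diagonally dominant; it is `1` at `s = 0`). The matrix in `bd` is
`M + w e_y r` with the row `r = T x ·`, so `bd = det M (1 + w (r M⁻¹) y)` (matrix determinant lemma),
and `w (T M⁻¹) x y = lim_N w (T P_N) x y = lim ∑_{k<N} w^(k+1) (T S^k) x y ≤ κ`. -/
def S_GRN : Prop := ∀ (V : Type) [Fintype V] [DecidableEq V] (T : Matrix V V ℝ) (w κ : ℝ)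
  (U : Finset V) (x y : V), (∀ a b, 0 ≤ T a b) → (∀ a, ∑ b, T a b ≤ 1) → 0 ≤ w → w < 1 →
  0 < dS w U T ∧
  ((∀ N : ℕ, ∑ k ∈ Finset.range N, w ^ (k + 1) * (T * (dg U * T) ^ k) x y ≤ κ) →
    bd w U T x y - dS w U T ≤ κ * dS w U T)

/-- P3. Bordered determinant of a permutation: it sees the arc from `x` through `U` to `y`.
Proof. As in GRN `bd = dS (1 + ∑_{k≥0} w^(k+1) (P S^k) x y)` with `P = pm g`, `S = dg U * P`, and
`(P S^k) x y = 1` if `g x, ..., g^k x ∈ U` and `g^(k+1) x = y`, otherwise `0`. As `y ∉ U`, at most one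
`k` contributes: in the first case exactly `k = m - 1`, in the second none. -/
def S_P3 : Prop := ∀ (V : Type) [Fintype V] [DecidableEq V] (g : Perm V) (w : ℝ) (U : Finset V)
  (x y : V), 0 ≤ w → w < 1 → y ∉ U →
  (∀ m : ℕ, 0 < m → (∀ i, 0 < i → i < m → (g ^ i) x ∈ U) → (g ^ m) x = y →
    bd w U (pm g) x y - dS w U (pm g) = w ^ m * dS w U (pm g)) ∧
  ((¬ ∃ m : ℕ, 0 < m ∧ (∀ i, 0 < i → i < m → (g ^ i) x ∈ U) ∧ (g ^ m) x = y) →
    bd w U (pm g) x y - dS w U (pm g) = 0)

/-- P4. Determinants of permutations and cycles.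
Proof. (1) `0 ≤ dS ≤ 1` follows from (3), (4) by induction on `|S|` (each step removes a point whose
orbit leaves `S`, or a whole cycle with a factor in `[0, 1]`; `dS w ∅ = 1`), the strict inequality
from `w < 1`. (2) conjugate by `pm h`. (3) If the orbit of `a ∈ S` leaves `S`: let `j ≥ 1` be the
smallest number with `g^j a ∉ S`. The row `a` of `M = 1 - w dg S pm g` is `e_a - w e_{g a}`, the row
of `g^i a` is `e_{g^i a} - w e_{g^(i+1) a}` for `i < j` and the row of `g^j a ∉ S` is `e_{g^j a}`. Adding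
`w` times the row `g a`, `w^2` times the row `g^2 a`, ... to row `a` turns it into `e_a` (last step:
`w^j e_{g^j a}` is removed by the row of `g^j a`); the new matrix is the one for `S.erase a`. (4) If
the cycle `C` of `a` lies in `S`: after a block decomposition along `C` and its complement (`g`
preserves both) the determinant is the product of `det (1 - w pm (g|C)) = 1 - w^|C|` and the
determinant for `S \ C`; or: erase `a` first: by multilinearity in the row `a`,
`dS w S = dS w (S.erase a) - (value of the bordered term) = (1 - w^|C|) dS w (S.erase a)` by P3 with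
`U = S.erase a`, `x = y = a`, `m = |C|` (row `a` of `dS w S` is `e_a - w e_{g a}`, i.e.
`bd w U (pm g) a a + dS w S = 2 dS w U`), and then `dS w (S.erase a) = dS w (S \ C)` by (3). -/
def S_P4 : Prop := ∀ (V : Type) [Fintype V] [DecidableEq V] (g h : Perm V) (w : ℝ) (S : Finset V),
  0 ≤ w → w < 1 →
  (0 < dS w S (pm g) ∧ dS w S (pm g) ≤ 1) ∧
  dS w (S.image h) (pm (h * g * h⁻¹)) = dS w S (pm g) ∧
  (∀ a ∈ S, (∃ i : ℕ, (g ^ i) a ∉ S) → dS w S (pm g) = dS w (S.erase a) (pm g)) ∧
  (∀ a ∈ S, cyc g a ⊆ S → dS w S (pm g) = (1 - w ^ (cyc g a).card) * dS w (S \ cyc g a) (pm g))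

/-- P1. Total mass one.
Proof. Induction on the number of points of `S = univ \ X`. If `S = ∅` the only `A` is `∅` and the
value is `1`. Otherwise let `a ∈ S`. If the orbit of `a` leaves `S` no invariant `A ⊆ S` contains a
point of the orbit and by P4 (3) the term of `A` does not change if `a` is removed from `S` (added to
`X`). If the cycle `C` of `a` is in `S`, an invariant `A` either contains `C` or is disjoint from it;
by P4 (4) the terms of `A` and `A ∪ C` (`A` disjoint from `C`) are
`w^|A| (1 - w^|C|) dS w (S \ C \ A)` and `w^|A| w^|C| dS w (S \ C \ A)`: their sum is the term of `A`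
for `X ∪ C`. -/
def S_P1 : Prop := ∀ (V : Type) [Fintype V] [DecidableEq V] (g : Perm V) (w : ℝ) (X : Finset V),
  0 ≤ w → w < 1 →
  ∑ A : Finset V, (if Inv g A ∧ Disjoint A X then w ^ A.card * dS w (univ \ (A ∪ X)) (pm g) else 0) = 1

/-- PEEL. One more arc costs a factor `|X| κ`.
Proof. Write `g = gp e ω n`. For `R` with `Sh X (insert x I) g R` let `m ≥ 1` be minimal with
`g^m x ∈ X` (it exists: `x ∈ X` and the order of `g` is finite), `arc = {x, g x, ..., g^(m-1) x}`;
`arc ⊆ R` by the second condition of `Sh`. Put `R' = R \ arc`. Then `Sh X I g R'`, `R' ∪ arc = R`,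
`|R| = |R'| + m`, the points `g^i x`, `0 < i < m`, are in `U = univ \ (R' ∪ X)` and
`dS w (univ \ (R ∪ X)) (pm g) = dS w U (pm g)` by P4 (3) used for `g^i x`, `i = m - 1, ..., 1` (their
orbits leave `U` at `g^m x ∈ X`). For fixed `ω` the map `R ↦ R'` is injective, and `Gd ω R → Gd ω R'`.
So the sum over `R` is at most
`∑_{R' : Sh X I g R' ∧ Gd ω R'} w^|R'| ∑_{y ∈ X} (bd w U (pm g) x y - dS w U (pm g))` by P3 (the arc ends
at exactly one `y ∈ X`, the other terms are `0`).
For fixed `R'` the factor `Θ = 1[Sh X I g R' ∧ Gd ω R'] w^|R'|` is `Rmeas e n R'`: the conditions of `Sh`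
only involve `g a` for `a ∈ R'` (the third one says: every `a ∈ R' \ X` is in `g(R')`), use BAS1 (3).
By L1 with `X = 1`, `Y = -w dg U` (or `-w (dg U - E_{y x})`), which are constant matrices,
`E Θ (bd w U (pm g) x y - dS w U (pm g)) = E Θ (bd w U T x y - dS w U T)` with `T = TT e ω R' δ n`
(note `(E_{y x} P) a b = 1[a = y] P x b`), which by hypothesis is at most
`κ E Θ dS w U T = κ E Θ dS w U (pm g)` (L1 again). Sum over `y ∈ X` and `R'`. -/
def S_PEEL : Prop := ∀ (V : Type) [Fintype V] [DecidableEq V] (e : ℕ → V × V) (n : ℕ) (δ w κ : ℝ)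
  (Gd : (ℕ → Bool) → Finset V → Prop), 0 ≤ δ → δ ≤ 1 → 0 ≤ w → w < 1 → 0 ≤ κ →
  (∀ R, Rmeas e n R (fun ω => Gd ω R)) → (∀ ω R R', R' ⊆ R → Gd ω R → Gd ω R') →
  (∀ ω R, Gd ω R → ∀ U : Finset V, Disjoint U R → ∀ x, x ∉ R → x ∉ U → ∀ y, y ∉ U →
    bd w U (TT e ω R δ n) x y - dS w U (TT e ω R δ n) ≤ κ * dS w U (TT e ω R δ n)) →
  ∀ X I : Finset V, I ⊆ X → ∀ x ∈ X, x ∉ I →
    WW e n δ w Gd X (insert x I) ≤ (X.card * κ) * WW e n δ w Gd X I

/-- ARC. All arcs.
Proof. Induction on `|I|` with PEEL; for `I = ∅` the shapes are the invariant sets disjoint from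
`X`, so `WW ≤ 1` by P1 (drop `Gd`, all terms are nonnegative by P4 (1)) and BAS3. -/
def S_ARC : Prop := ∀ (V : Type) [Fintype V] [DecidableEq V] (e : ℕ → V × V) (n : ℕ) (δ w κ : ℝ)
  (Gd : (ℕ → Bool) → Finset V → Prop), 0 ≤ δ → δ ≤ 1 → 0 ≤ w → w < 1 → 0 ≤ κ →
  (∀ R, Rmeas e n R (fun ω => Gd ω R)) → (∀ ω R R', R' ⊆ R → Gd ω R → Gd ω R') →
  (∀ ω R, Gd ω R → ∀ U : Finset V, Disjoint U R → ∀ x, x ∉ R → x ∉ U → ∀ y, y ∉ U →
    bd w U (TT e ω R δ n) x y - dS w U (TT e ω R δ n) ≤ κ * dS w U (TT e ω R δ n)) →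
  ∀ X I : Finset V, I ⊆ X → WW e n δ w Gd X I ≤ (X.card * κ) ^ I.card

/-- RUS. Russo's formula in the marking parameter, for one permutation.
Proof. Let `C_1, ..., C_r` be the cycles of `g`. An invariant set is a union of cycles, and by P4 (4)
`dS w (univ \ A) (pm g) = ∏_{C_j ⊄ A} (1 - w^|C_j|)`, so the sum is
`Φ(w) = ∑_{J ⊆ {1..r}} ∏_{j ∈ J} w^|C_j| ∏_{j ∉ J} (1 - w^|C_j|) b(∪_J C_j)`, a polynomial with derivative
`∑_j |C_j| w^(|C_j| - 1) ∑_{J ∌ j} ∏_{i ∈ J} w^|C_i| ∏_{i ∉ J, i ≠ j} (1 - w^|C_i|) (b(J ∪ j) - b(J))`.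
Write `|C_j| = ∑_{x ∈ C_j} 1` and bound the difference by its positive part; the remaining product
is `dS w (univ \ (A ∪ C_j)) (pm g)`. (An induction over the cycles like in P1 avoids the indexing:
the sum over the invariant sets inside an invariant set `S` with `dS w (S \ A)`.) -/
def S_RUS : Prop := ∀ (V : Type) [Fintype V] [DecidableEq V] (g : Perm V) (b : Finset V → ℝ) (w : ℝ),
  0 ≤ w → w < 1 → ∃ D : ℝ,
  HasDerivAt (fun w' : ℝ => ∑ A : Finset V, if Inv g A then
    w' ^ A.card * dS w' (univ \ A) (pm g) * b A else 0) D w ∧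
  D ≤ ∑ x : V, ∑ A : Finset V, if Inv g A ∧ x ∉ A then
    w ^ (A.card + (cyc g x).card - 1) * dS w (univ \ (A ∪ cyc g x)) (pm g) *
      max 0 (b (A ∪ cyc g x) - b A) else 0

end Q292.LC
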