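import Pool.Agent.Q292.LC.Stm1

/-!
# Project LC, statements 2: the first violation
-/

set_option autoImplicit false

namespace Q292.LC

open Finset Equiv Matrix

/-- At one of the times `0, u, ..., (K - 1) u` some set `B v` contains more than `lam` particles
which started in `A`. -/
def viol {V : Type} [DecidableEq V] (e : ℕ → V × V) (u K : ℕ) (B : V → Finset V) (lam : ℕ)
    (ω : ℕ → Bool) (A : Finset V) : Prop :=
  ∃ j < K, ∃ v, lam < ((A.image (gp e ω (j * u))) ∩ B v).card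

/-- FIRST. The first violation along the cycle of `x`.
Proof. Write `n = K u`, `g = gp e ω n`, `C = cyc g x`, `z_i = g^i x` (`i < |C|` are the distinct points
of `C`). For `i ≤ |C|` and `j ≤ K` let `F i j` be the statement: for some `j' < K` and some `v` the set
`B v` contains more than `lam` of the positions at time `j' u` of the particles of
`A ∪ {z_l : l < i} ∪ (if j' < j then {z_i} else ∅)` (for `i < |C|`). `F 0 0` is false (`¬ viol A`),
`F (|C| - 1) K` is true, `F i K ↔ F (i + 1) 0`. So in the lexicographic order there is a first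
`(m, j)`, `m < |C|`, `j < K`, with `¬ F m j` and `F m (j + 1)`. As `F m j` fails, the violation in
`F m (j + 1)` is at `j' = j` and uses `z_m`: for some `v`,
`lam < |B v ∩ positions at time j u of A ∪ {z_l : l ≤ m}|`. Now rotate by `s = j u`: by ROT (third line)
`g' = h g h⁻¹` with `h = gp e ω s`, so `g'^i y = h z_i` where `y = h x`, and `h` maps `A ∪ {z_l : l ≤ m}`
onto `insert ((g'^m) y) R'`; this is the second claim. First claim: a violation of `R'` in the
rotated circuit at time `j' u`: if `j' ≤ K - j - 1`, ROT (1) says that the positions at time `j' u` of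
the rotated circuit of the particles of `R' = h (A ∪ {z_l : l < m})` are the positions at time
`(j + j') u` of `A ∪ {z_l : l < m}` in the original circuit, which is no violation by `¬ F m j`. If
`j' = K - j + j''` with `0 ≤ j'' < j`, ROT (2) says that they are the positions at time `j'' u` of
`g (A ∪ {z_l : l < m}) = A ∪ {z_l : 1 ≤ l ≤ m}`, a subset of the set in `¬ F m j` for `j'' < j` (for
`m = 0` the set is `A`). -/
def S_FIRST : Prop := ∀ (V : Type) [Fintype V] [DecidableEq V] (e : ℕ → V × V) (u K lam : ℕ)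
  (B : V → Finset V) (ω : ℕ → Bool) (A : Finset V) (x : V),
  0 < u → (∀ k, e (k + u) = e k) → Inv (gp e ω (K * u)) A → x ∉ A → ¬ viol e u K B lam ω A →
  viol e u K B lam ω (A ∪ cyc (gp e ω (K * u)) x) →
  ∃ j < K, ∃ v : V, ∃ m < (cyc (gp e ω (K * u)) x).card,
    ¬ viol e u K B lam (rot (K * u) (j * u) ω) (A.image (gp e ω (j * u)) ∪
      (Finset.range m).image fun i =>
        (gp e (rot (K * u) (j * u) ω) (K * u) ^ i) (gp e ω (j * u) x)) ∧
    lam < ((insert ((gp e (rot (K * u) (j * u) ω) (K * u) ^ m) (gp e ω (j * u) x))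
      (A.image (gp e ω (j * u)) ∪ (Finset.range m).image fun i =>
        (gp e (rot (K * u) (j * u) ω) (K * u) ^ i) (gp e ω (j * u) x))) ∩ B v).card

/-- BADP. Violations have small probability.
Proof. Let `n = K u`, `F(w') = PW e n δ w' (Om ∧ viol)`. `F(0) = 0`: only `A = ∅` contributes at
`w' = 0` and it is no violation. By RUS (with `b A = 1` if `Om ω ∧ viol A`, `0` otherwise) and BAS3,
`F` has at every `w' ∈ [0, w]` a derivative
`≤ E_ω ∑_x ∑_A 1[Inv g A, x ∉ A, Om ω, ¬ viol A, viol (A ∪ C)] w'^(|A|+|C|-1) dS w' (univ \ (A ∪ C)) (pm g)`,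
`C = cyc g x`. We show that this is `≤ RHS`; then `F w ≤ w RHS ≤ RHS` by the mean value theorem.
Fix `ω, x, A` in the sum and let `j, v, m` be as in FIRST, `ω' = rot n (j u) ω`, `g' = gp e ω' n`,
`h = gp e ω (j u)`, `y = h x`, `A' = h A`, `C' = h C = cyc g' y`, `R' = A' ∪ {g'^i y : i < m}`,
`tip = g'^m y`. As `R'` is no violation (time `0`) and `insert tip R'` has more than `lam` points in
`B v`: `tip ∈ B v`, and `X = B v ∩ insert tip R'` has exactly `lam + 1` points. Put
`X⁺ = insert y X`, `I = X⁺ \ {tip}`. Then `Sh X⁺ I g' R'` (`tip ∉ R'` because `m < |C|`, and `y ∈ R'` if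
`m > 0`, `y = tip` if `m = 0`; the points of `R'` followed by a point outside `R'`: only `g'^(m-1) y`,
followed by `tip`; preceded by a point outside: only `y`), `Gd ω' R'` by hypothesis,
`|R'| = |A| + m ≤ |A| + |C| - 1`, and
`dS w' (univ \ (A ∪ C)) (pm g) = dS w' (univ \ (A' ∪ C')) (pm g') = dS w' (univ \ (R' ∪ X⁺)) (pm g')` by
P4 (2) and (3) (the points of `C'` outside `R' ∪ X⁺` have an orbit which meets `tip`).
The pair `(x, A)` is determined by `j, y, R', tip` (`A' = ` the union of the cycles of `g'` inside `R'`).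
So the sum over `x, A` is at most `∑_j ∑_v ∑_{X ⊆ B v, |X| = lam+1} ∑_y ∑_{tip ∈ X} ∑_{R'} [Sh X⁺ I g' R' ∧
Gd ω' R'] w'^|R'| dS w' (univ \ (R' ∪ X⁺)) (pm g')`. Take the mean over `ω`; `ω'` has the same law
(BAS3 (6)), so it is `≤ ∑_j ∑_v ∑_X ∑_y ∑_tip WW X⁺ I ≤ K |V| (b choose (lam+1)) |V| (lam+1) ((lam+2) κ)^lam`
by ARC: `|X⁺| ≤ lam + 2`, `|I| ≥ lam`, `(lam + 2) κ ≤ 1`. -/
def S_BADP : Prop := ∀ (V : Type) [Fintype V] [DecidableEq V] (e : ℕ → V × V) (u K lam b : ℕ)
  (δ w κ : ℝ) (B : V → Finset V) (Om : (ℕ → Bool) → Prop) (Gd : (ℕ → Bool) → Finset V → Prop),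
  0 ≤ δ → δ ≤ 1 → 0 ≤ w → w < 1 → 0 ≤ κ → (lam + 2) * κ ≤ 1 → 0 < u → 0 < K →
  (∀ k, e (k + u) = e k) → (∀ v, (B v).card ≤ b) →
  (∀ R, Rmeas e (K * u) R (fun ω => Gd ω R)) → (∀ ω R R', R' ⊆ R → Gd ω R → Gd ω R') →
  (∀ ω R, Gd ω R → ∀ w', 0 ≤ w' → w' ≤ w → ∀ U : Finset V, Disjoint U R → ∀ x, x ∉ R → x ∉ U →
    ∀ y, y ∉ U → bd w' U (TT e ω R δ (K * u)) x y - dS w' U (TT e ω R δ (K * u)) ≤
      κ * dS w' U (TT e ω R δ (K * u))) →
  (∀ ω, Om ω → ∀ j < K, ∀ R, ¬ viol e u K B lam (rot (K * u) (j * u) ω) R →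
    Gd (rot (K * u) (j * u) ω) R) →
  PW e (K * u) δ w (fun ω A => Om ω ∧ viol e u K B lam ω A) ≤
    K * (Fintype.card V : ℝ) ^ 2 * (b.choose (lam + 1) : ℝ) * (lam + 1) * ((lam + 2) * κ) ^ lam

end Q292.LC
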