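import Mathlib

/-!
# Stirring circuits: definitions

A circuit is a sequence `e 0, e 1, ...` of pairs of sites. Step `k` swaps the contents of the two
sites of `e k` when the coin `ω k` is `true` and does nothing otherwise. The coins are independent
and `true` with probability `δ`.
-/

set_option autoImplicit false

namespace Q292.LC

open Finset Equiv Matrix

section gen

variable {V : Type} [DecidableEq V]

/-- `gp e ω k x` is the position, after the first `k` steps, of the particle which starts at `x`. -/
def gp (e : ℕ → V × V) (ω : ℕ → Bool) : ℕ → Perm V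
  | 0 => 1
  | k + 1 => if ω k then swap (e k).1 (e k).2 * gp e ω k else gp e ω k

/-- Step `k` touches (the position of) one of the particles which start in `A`. -/
def tch (e : ℕ → V × V) (ω : ℕ → Bool) (A : Finset V) (k : ℕ) : Prop :=
  ∃ a ∈ A, gp e ω k a = (e k).1 ∨ gp e ω k a = (e k).2

instance (e : ℕ → V × V) (ω : ℕ → Bool) (A : Finset V) (k : ℕ) : Decidable (tch e ω A k) := by
  unfold tch
  infer_instance

/-- The number of steps `k` of `[a, b)` with `ω k = true` which touch the particle started at `x`
(the number of times it is swapped). -/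
def jumps (e : ℕ → V × V) (ω : ℕ → Bool) (a b : ℕ) (x : V) : ℕ :=
  ((Finset.Ico a b).filter fun k => ω k = true ∧ tch e ω {x} k).card

/-- permutation matrix: the entry `a b` is `1` if `g a = b` -/
def pm (g : Perm V) : Matrix V V ℝ := Matrix.of fun a b => if g a = b then 1 else 0

/-- The step matrix of a free step. -/
def fr (δ : ℝ) (p : V × V) : Matrix V V ℝ :=
  (1 - δ) • (1 : Matrix V V ℝ) + δ • pm (swap p.1 p.2)

/-- The step matrix of step `k` in the environment of the particles started in `A`: a step which
touches one of them is deterministic, the others are free. -/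
def Mx (e : ℕ → V × V) (ω : ℕ → Bool) (A : Finset V) (δ : ℝ) (k : ℕ) : Matrix V V ℝ :=
  if tch e ω A k then (if ω k then pm (swap (e k).1 (e k).2) else 1) else fr δ (e k)

/-- coins shifted by `s` -/
def sh {α : Type} (s : ℕ) (f : ℕ → α) : ℕ → α := fun k => f (k + s)

/-- The circuit of length `n` rotated by `s`: first the steps `s, ..., n - 1`, then
`0, ..., s - 1`. -/
def rot (n s : ℕ) (ω : ℕ → Bool) : ℕ → Bool := fun k => if k < n then ω ((k + s) % n) else false

variable [Fintype V]

/-- The transition matrix of `n` steps of a random walk in the environment of the particles started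
in `A` (row: start, column: end). -/
def TT (e : ℕ → V × V) (ω : ℕ → Bool) (A : Finset V) (δ : ℝ) : ℕ → Matrix V V ℝ
  | 0 => 1
  | n + 1 => TT e ω A δ n * Mx e ω A δ n

/-- Expectation over the first `n` coins (the others are `false`). -/
def EE (n : ℕ) (δ : ℝ) (F : (ℕ → Bool) → ℝ) : ℝ :=
  ∑ S ∈ (Finset.range n).powerset, δ ^ S.card * (1 - δ) ^ (n - S.card) * F (fun k => decide (k ∈ S))

/-- `Θ` depends only on the coins of the steps `< n` which touch the particles started in `A`. -/
def Rmeas {α : Type} (e : ℕ → V × V) (n : ℕ) (A : Finset V) (Θ : (ℕ → Bool) → α) : Prop :=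
  ∀ ω ω' : ℕ → Bool, (∀ k < n, tch e ω A k → ω k = ω' k) → Θ ω = Θ ω'

/-- diagonal matrix of a set -/
def dg (S : Finset V) : Matrix V V ℝ := Matrix.diagonal fun a => if a ∈ S then 1 else 0

/-- `det (1 - w P)` restricted to the rows in `S` -/
noncomputable def dS (w : ℝ) (S : Finset V) (P : Matrix V V ℝ) : ℝ :=
  (1 - w • (dg S * P)).det

/-- bordered determinant: row `y` gets `w` times the row `x` of `P` in addition -/
noncomputable def bd (w : ℝ) (S : Finset V) (P : Matrix V V ℝ) (x y : V) : ℝ :=
  (1 - w • (dg S * P) + w • Matrix.of fun a b => if a = y then P x b else 0).det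

/-- the cycle of `x` -/
def cyc (g : Perm V) (x : V) : Finset V := univ.filter fun y => g.SameCycle x y

/-- the set `A` is a union of cycles of `g` -/
def Inv (g : Perm V) (A : Finset V) : Prop := ∀ a ∈ A, g a ∈ A

instance (g : Perm V) (A : Finset V) : Decidable (Inv g A) := by
  unfold Inv
  infer_instance

/-- Shape of a set `R` of revealed particles: it meets `X` exactly in `I`, every revealed particle
is followed by a revealed one or by a point of `X`, and a revealed particle outside `X` is preceded
by a revealed one. So `R` consists of cycles which avoid `X` and, for every point of `I`, of the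
arc which starts there and ends just before the next point of `X`. -/
def Sh (X I : Finset V) (g : Perm V) (R : Finset V) : Prop :=
  R ∩ X = I ∧ (∀ a ∈ R, g a ∈ R ∪ X) ∧ ∀ a ∈ R, a ∉ X → g⁻¹ a ∈ R

instance (X I : Finset V) (g : Perm V) (R : Finset V) : Decidable (Sh X I g R) := by
  unfold Sh
  infer_instance

open Classical in
/-- Weight of all shapes. -/
noncomputable def WW (e : ℕ → V × V) (n : ℕ) (δ w : ℝ) (Gd : (ℕ → Bool) → Finset V → Prop)
    (X I : Finset V) : ℝ :=
  EE n δ fun ω => ∑ R : Finset V, if Sh X I (gp e ω n) R ∧ Gd ω R then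
    w ^ R.card * dS w (univ \ (R ∪ X)) (pm (gp e ω n)) else 0

open Classical in
/-- Probability, when every cycle `C` is marked with probability `w ^ |C|`, that the pair (coins,
set of marked particles) satisfies `B`. -/
noncomputable def PW (e : ℕ → V × V) (n : ℕ) (δ w : ℝ) (B : (ℕ → Bool) → Finset V → Prop) : ℝ :=
  EE n δ fun ω => ∑ A : Finset V, if Inv (gp e ω n) A ∧ B ω A then
    w ^ A.card * dS w (univ \ A) (pm (gp e ω n)) else 0

end gen

section torus

variable {d L : ℕ}

/-- the `ℓ¹` distance on the torus -/
def td (x y : Fin d → ZMod L) : ℕ := ∑ i, (x i - y i).valMinAbs.natAbs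

/-- the edge which starts at `p.1` in direction `p.2` -/
def ed (p : (Fin d → ZMod L) × Fin d) : (Fin d → ZMod L) × (Fin d → ZMod L) :=
  (p.1, Function.update p.1 p.2 (p.1 p.2 + 1))

/-- number of edges of the torus: the number of steps of one sweep -/
def ms (d L : ℕ) : ℕ := L ^ d * d

/-- `σ` enumerates all edges, again and again, always in the same order. -/
def Per (σ : ℕ → (Fin d → ZMod L) × Fin d) : Prop :=
  (∀ k, σ (k + ms d L) = σ k) ∧ Set.BijOn σ (Set.Iio (ms d L)) Set.univ

variable [NeZero L]

/-- ball of the distance `td` -/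
def bal (z : Fin d → ZMod L) (r : ℕ) : Finset (Fin d → ZMod L) := univ.filter fun x => td z x ≤ r

/-- box with `r ^ d` points (for `r ≤ L`), corner `z` -/
def box (z : Fin d → ZMod L) (r : ℕ) : Finset (Fin d → ZMod L) :=
  univ.filter fun x => ∀ i, (x i - z i).val < r

end torus

end Q292.LC
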