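import Pool.Agent.Q292.LC.Tail
import Pool.Agent.Q257.LC.KerU
import Pool.Agent.Q277.LC.Bad
import Pool.Agent.Q277.LC.Kha
import Pool.Agent.Q277.LC.Pe
import Pool.Agent.Q66.LC.Jmp
import Pool.Agent.Q229.LC.HK
import Pool.Agent.Q297.LC.Lcs
import Pool.Agent.Q297.LC.Lim
import Pool.Agent.Q297.LC.Tlc

/-!
# Project LC: the statements on the tail of the cycle length
-/

set_option autoImplicit false

namespace Q292.LC

theorem all_omp : S_OMP :=
  Pool.Agent.Q277.LC.omp Pool.Agent.Q66.LC.jmp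
    (Pool.Agent.Q277.LC.kha (Pool.Agent.Q277.LC.t_clo Pool.Agent.Q257.LC.fre))

theorem all_btl : S_BTL := Pool.Agent.Q277.LC.btl Pool.Agent.Q257.LC.ker all_omp

theorem all_tls : S_TLS :=
  Pool.Agent.Q297.LC.tls (Pool.Agent.Q297.LC.tlc all_btl Pool.Agent.Q277.LC.peb)

theorem all_lcs : S_LCS := Pool.Agent.Q297.LC.lcs Pool.Agent.Q66.LC.jmp

theorem all_hkl : S_HKL := Pool.Agent.Q229.LC.HK.hkl

end Q292.LC
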