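import Pool.Agent.Q292.LC.Stm2
import Pool.Agent.Q292.LC.Stm3

/-!
# Project LC, statements 4: the kernel bound in a good environment
-/

set_option autoImplicit false

namespace Q292.LC

open Finset Equiv Matrix

section defs

variable {d L : ℕ} [NeZero L]

/-- Good environment of the particles started in `R`, in the form needed for marked cycles. -/
def Gd (σ : ℕ → (Fin d → ZMod L) × Fin d) (q K lam r ρ κ₀ : ℕ) (ω : ℕ → Bool)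
    (R : Finset (Fin d → ZMod L)) : Prop :=
  ¬ viol (ed ∘ σ) (q * ms d L) K (fun v => bal v r) lam ω R ∧
  (∀ j < K, ∀ a ∈ R,
    jumps (ed ∘ σ) ω (j * (q * ms d L)) ((j + 1) * (q * ms d L)) a ≤ ρ) ∧
  (∀ a ∈ R, ∀ b ∈ R, a ≠ b → ((Finset.range (K * q)).filter fun s =>
    td (gp (ed ∘ σ) ω (s * ms d L) a) (gp (ed ∘ σ) ω (s * ms d L) b) ≤ 3).card ≤ κ₀ * q)

/-- edges in reversed order -/
def rvs (σ : ℕ → (Fin d → ZMod L) × Fin d) : ℕ → (Fin d → ZMod L) × Fin d :=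
  fun k => σ (ms d L - 1 - k % ms d L)

/-- coins in reversed order -/
def rvo (n : ℕ) (ω : ℕ → Bool) : ℕ → Bool := fun k => if k < n then ω (n - 1 - k) else false

end defs

/-- SUB. Windows.
Proof. `sh` by a multiple of the period does not change `σ`; BAS1 (1) (positions at later times). -/
def S_SUB : Prop := ∀ (d L : ℕ) [NeZero L], 3 ≤ L → ∀ σ : ℕ → (Fin d → ZMod L) × Fin d, Per σ →
  ∀ (q K lam r ρ κ₀ : ℕ) (ω : ℕ → Bool) (A : Finset (Fin d → ZMod L)),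
  Ev σ q K lam r ρ κ₀ ω A → ∀ j u, j + u ≤ K →
  sh (j * (q * ms d L)) (ed ∘ σ) = ed ∘ σ ∧
  Ev σ q u lam r ρ κ₀ (sh (j * (q * ms d L)) ω) (A.image (gp (ed ∘ σ) ω (j * (q * ms d L))))

/-- REV. Time reversal.
Proof. `n = K q ms` is a multiple of the period, so `rvs σ k = σ (n - 1 - k)` for `k < n`. By induction
(or from BAS1) `gp (ed ∘ rvs σ) (rvo n ω) k * gp (ed ∘ σ) ω n = gp (ed ∘ σ) ω (n - k)` for `k ≤ n`: the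
reversed circuit undoes the steps. A step is touched by `A` in the original circuit before it
takes place iff after it, so step `k` of the reversed circuit is touched by `A.image (gp n)` iff
step `n - 1 - k` of the original one is touched by `A`; the step matrices are symmetric, so the
product in the reversed order is the transpose. Units, sweeps and jumps correspond (unit `j` and
unit `K - 1 - j`, start of sweep `s` and start of sweep `K q - s`). -/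
def S_REV : Prop := ∀ (d L : ℕ) [NeZero L], 1 ≤ d → 3 ≤ L →
  ∀ σ : ℕ → (Fin d → ZMod L) × Fin d, Per σ →
  ∀ (q K lam r ρ κ₀ : ℕ) (ω : ℕ → Bool) (A : Finset (Fin d → ZMod L)) (δ : ℝ),
  Per (rvs σ) ∧
  (Ev σ q K lam r ρ κ₀ ω A → Ev (rvs σ) q K lam r ρ κ₀ (rvo (K * (q * ms d L)) ω)
    (A.image (gp (ed ∘ σ) ω (K * (q * ms d L))))) ∧
  TT (ed ∘ rvs σ) (rvo (K * (q * ms d L)) ω) (A.image (gp (ed ∘ σ) ω (K * (q * ms d L)))) δ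
    (K * (q * ms d L)) = (TT (ed ∘ σ) ω A δ (K * (q * ms d L)))ᵀ

/-- GE. From the good environments of marked cycles to environments.
Proof. Counts at times `j < K`: `¬ viol` and `bal v r ⊆ bal v (r + ρ)`. At time `K`: a particle in
`bal v r` at time `K` was in `bal v (r + ρ)` at time `K - 1` (at most `ρ` jumps, each of distance `1`).
The start of sweep `K q` adds at most `1 ≤ q` to the number of sweeps. -/
def S_GE : Prop := ∀ (d L : ℕ) [NeZero L], 3 ≤ L → ∀ σ : ℕ → (Fin d → ZMod L) × Fin d, Per σ →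
  ∀ (q K lam r ρ κ₀ : ℕ) (ω : ℕ → Bool) (A : Finset (Fin d → ZMod L)), 1 ≤ q → 1 ≤ K →
  Gd σ q K lam (r + ρ) ρ κ₀ ω A → Ev σ q K lam r ρ (κ₀ + 1) ω A

/-- FRE. The free kernel, for many sweeps per unit.
(In terms of the heat kernel `qq (nnRate d L) t` of Pool.Agent.Y998.ST; statements HK and TRO in
Stm5.) Proof. By TRO, `|PP (s ms) - qq (s δ)| ≤ C_(L,K) / q`, so for `q ≥ q₀(L, K)` the difference is at
most `exp (- d L) L^(-d) / C`. (a) `qq (t) ≤ (1/L + 1/√t)^d` (Pool.Agent.Y998.ST.qq_torus, gk_abs,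
gk_le), and `≤ 1`. (b) For `k ≤ u q ms` let `s = ⌈k / ms⌉`. Every step matrix has diagonal entries
`≥ 1 - δ`, so `PP (s ms) x y ≥ PP k x y (1 - δ)^ms ≥ PP k x y / 2` (if `q₀` is large compared to `ms`).
So the sum is at most `2 ∑ qq (s δ) x y + error ≤ C exp (- D / (C √u))` by HK (b) (`s δ ≤ 2 u`; for
`D ≥ d L` the sum is empty; use `t ≥ 1` in HK, for smaller `t` the tail is smaller, e.g. by
HK (b) with `max`: HK (b) is stated for all `t ≥ 0` with `√(t + 1)`). (c) `1 ≤ u ≤ u q δ ≤ 2 u`, HK (c). -/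
def S_FRE : Prop := ∀ d : ℕ, 1 ≤ d → ∃ C : ℝ, 1 ≤ C ∧ ∀ (L : ℕ) [NeZero L], 3 ≤ L → ∀ K : ℕ,
  ∃ q₀ : ℕ, ∀ q ≥ q₀, ∀ σ : ℕ → (Fin d → ZMod L) × Fin d, Per σ → ∀ δ : ℝ,
  1 ≤ δ * q → δ * q ≤ 2 →
  (∀ s ≤ K * q, ∀ x y, PP (ed ∘ σ) δ (s * ms d L) x y ≤
    C * ((1 + s * δ) ^ (-(d / 2 : ℝ)) + 1 / (L : ℝ) ^ d)) ∧
  (∀ u, 1 ≤ u → u ≤ K → ∀ k ≤ u * (q * ms d L), ∀ (D : ℕ) y,
    ∑ x ∈ univ.filter (fun x => D < td x y), PP (ed ∘ σ) δ k x y ≤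
      C * Real.exp (-(D / (C * Real.sqrt u)))) ∧
  (∀ u, 1 ≤ u → u ≤ K → u ≤ L ^ 2 → ∀ x y, (td x y : ℝ) ≤ Real.sqrt u / C →
    (u : ℝ) ^ (-(d / 2 : ℝ)) / C ≤ PP (ed ∘ σ) δ (u * (q * ms d L)) x y)

/-- SEQ. The recursion.
Proof. Let `b_k = a_k^(-2/d) ≥ 1` (as long as `a_k > 0`; if `a_n = 0` or `a_n ≤ m₀` there is nothing to
prove; `a` is nonincreasing, so assume `a_k > m₀`, `a_k > 0` for all `k ≤ n`), `G = 2^(2/d)`. For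
`1 ≤ k < n`: first case `b_{k+1} ≥ 4^(2/d) b_{k-1}`. Last case with the minimum `p a_{k+1}`:
`a_k ≥ (1 + c p) a_{k+1} ≥ 4 a_{k+1}`, again `b_{k+1} ≥ 4^(2/d) b_k`. With the minimum
`u a_{k+1}^(1+2/d)`: `a_k ≥ a_{k+1} (1 + ρ)`, `ρ = c u / b_{k+1}`, so `b_{k+1} ≥ (1 + ρ)^(2/d) b_k`; if `ρ ≥ 1`
this is `≥ G b_k`; if `ρ ≤ 1`, `(1+ρ)^(-2/d) ≤ 1 - c_d ρ` gives `b_k ≤ b_{k+1} - c_d c u`. So always
`b_{k+1} ≥ min (G b_{k-1}) (b_{k-1} + c₂ u)`, `c₂ = c_d c`. As long as `b < u` (at most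
`C₁ (1 + log (u+1))` indices: every second step multiplies by `G` or adds `c₂ u`), afterwards every
second step adds at least `c₃ u`, `c₃ = min (G - 1) c₂`. If `b_0 ≤ u`: `b_n ≥ u + c₃ u (n - n₀ - 2)/2 ≥
b_0 + c' u n` for `n ≥ 4 n₀ + 8`, otherwise `b_n ≥ b_0 + c₃ u (n - 2) / 2`. -/
def S_SEQ : Prop := ∀ (d : ℕ) (c : ℝ), 1 ≤ d → 0 < c → c ≤ 1 → ∃ c' C₁ : ℝ, 0 < c' ∧ 1 ≤ C₁ ∧
  ∀ (a : ℕ → ℝ) (n : ℕ) (u p m₀ : ℝ), 1 ≤ u → 3 ≤ c * p → 0 ≤ m₀ → (∀ k, 0 ≤ a k) →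
  (∀ k, a (k + 1) ≤ a k) → a 0 ≤ 1 → C₁ * (1 + Real.log (u + 1)) ≤ n →
  (∀ k, 1 ≤ k → k < n → a (k + 1) < a (k - 1) / 4 ∨ a (k + 1) ≤ m₀ ∨
    c * min (p * a (k + 1)) (u * (a (k + 1)) ^ (1 + 2 / d : ℝ)) ≤ a k - a (k + 1)) →
  a n ≤ max m₀ (((a 0) ^ (-(2 / d : ℝ)) + c' * u * n) ^ (-(d / 2 : ℝ)))

/-- LAP. Decay of the square norm in an environment of `K` units (`Z` a bound for all parameters of
logarithmic size).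
Proof. Constants: `C_f` from FRE, the `C` of SMO; `u₀ = Z^5`, `u₂ = Z^15 = u₀ p`, `p = Z^10`;
`ℓ = ⌊√u₀ / (2 C_f)⌋`, `r₀ = ⌊ℓ / (2 d)⌋`, `p₀ = u₀^(-d/2) / C_f`; `|bal 0 ℓ| ≥ c u₀^(d/2)` (it contains a
box of side `⌊ℓ/d⌋`), `ε = p₀ |bal 0 ℓ| / 8 ≥ c₁`. Let `f_j = f ᵥ* TT (j units)`, `F j = ∑ f_j²`
(nonincreasing, `∑ f_j ≤ 1`, `f_j ≥ 0`, `f_j = 0` on the positions `A_j`). For `j + u₀ ≤ K` let `Dm_j` be
the set of the `x` with `x ∈ A_j` or contact number `> ε` for the window `[j, j + u₀)` (SUB, `cc` of the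
shifted circuit). (1) Size: CON2 with `u = u₀`, `D = ⌈3 C_f √u₀ (Z + log C_f)⌉` and FRE (b):
`τ |A| ≤ C_f exp (-D/(C_f √u₀)) exp Z ≤ 1`; so `|Dm_j ∩ bal z B| ≤ lam + (8 ρ + 16 d) u₀ (lam + 1) / ε ≤
N_D := C₂ Z² u₀`, whenever `B + D + ρ + 1 ≤ r`. (2) `box v r₀ ⊆ bal v (d r₀)` and
`2 N_D ≤ 2 C₂ Z^7 ≤ r₀^d` because `r₀^d ≥ c u₀^(3/2) = c Z^(7.5)` (`d ≥ 3`, `Z ≥ C`). (3) For
`j ≥ u₂`, `z ∉ A_{j-u₂}`: SMO for the window `[j - u₂, j)` with `R = C (lam ρ + 1) u₂ ≤ 2 C Z^17`: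
`∑_{x ∈ Dm_j} TT z x ≤ ∑_{Dm_j ∩ bal z R} g + (1 - ∑ g) ≤ (N_D)^(1/2) (20/√u₂)^(1/2) + exp (-u₂) ≤ 1/8`
(`N_D / √u₂ = C₂ Z^(7 - 7.5)`). (4) So by Jensen and the column sums
`∑_{x ∈ Dm_j} f_j(x)² ≤ ∑_z f_{j-u₂}(z)² ∑_{x ∈ Dm_j} TT z x ≤ F (j - u₂) / 8`. (5) NEA (1) for the window
`[j, j + u₀)` and NAS with `r = r₀` (`2 d r₀ ≤ ℓ`): if `∑_{Dm_j} f_j² ≤ F j / 2`, then for all `M ≥ 1` with
`M r₀ ≤ L`: `F j / 2 ≤ C₃ M² (F j - F (j + u₀)) + C₃ (M r₀)^(-d)` (because `p₀² |bal| ≥ c r₀^(-d)`). Take the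
least `M ≥ 1` with `C₃ (M r₀)^(-d) ≤ F j / 4`; if `M r₀ > L` then `F j ≤ C₄ L^(-d)`; otherwise
`F j - F (j + u₀) ≥ F j / (4 C₃ M²) ≥ c min (F j) (u₀ (F j)^(1+2/d))`. (6) Let `a_k = F (k u₂)`,
`k ≤ n = ⌊K / u₂⌋`. Let `1 ≤ k < n`. If `a_{k+1} ≥ a_{k-1} / 4`, then `F j ≥ F (j - u₂) / 4` for all `j` in
`[k u₂, (k+1) u₂]`, so by (4) the condition of (5) holds for the `p` windows of the block and, unless
`a_{k+1} ≤ C₄ L^(-d)`, `a_k - a_{k+1} ≥ p c min (a_{k+1}) (u₀ a_{k+1}^(1+2/d)) =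
c min (p a_{k+1}) (u₂ a_{k+1}^(1+2/d))`. (7) SEQ with `u = u₂`, `m₀ = C₄ L^(-d)`; `n ≥ Z^(m-16)` is large
enough and `u₂ n ≥ K / 2`. All radii are `≤ Z^m ≤ r` and `≤ L / 8`; `q₀` from FRE and `≥ 4 Z²` and such
that `C δ ≤ 1`. -/
def S_LAP : Prop := ∀ d : ℕ, 3 ≤ d → ∃ (C m : ℕ) (c : ℝ), 1 ≤ C ∧ 0 < c ∧ ∀ Z : ℕ, C ≤ Z →
  ∀ (L K lam r ρ κ₀ : ℕ) [NeZero L], lam ≤ Z → ρ ≤ Z → κ₀ ≤ Z → (L : ℝ) ^ d ≤ Real.exp Z →
  Z ^ m ≤ r → 8 * Z ^ m ≤ L → Z ^ m ≤ K → ∃ q₀ : ℕ, ∀ q ≥ q₀,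
  ∀ σ : ℕ → (Fin d → ZMod L) × Fin d, Per σ → ∀ δ : ℝ, 1 ≤ δ * q → δ * q ≤ 2 →
  ∀ (ω : ℕ → Bool) (A : Finset (Fin d → ZMod L)), Ev σ q K lam r ρ κ₀ ω A →
  ∀ f : (Fin d → ZMod L) → ℝ, (∀ x, 0 ≤ f x) → (∀ x ∈ A, f x = 0) → ∑ x, f x ≤ 1 →
  ∑ x, (vecMul f (TT (ed ∘ σ) ω A δ (K * (q * ms d L))) x) ^ 2 ≤
    max (C / (L : ℝ) ^ d) (((∑ x, (f x) ^ 2) ^ (-(2 / d : ℝ)) + c * K) ^ (-(d / 2 : ℝ)))

/-- KER. Green function in a good environment.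
Proof. Let `T = TT .. n`, `R' = R.image (gp n)`, `U' = U \ R'`. For `a ∉ R` and `b ∈ R'` `T a b = 0` (BAS2),
so in all the products below, whose rows are not in `R`, `U` may be replaced by `U'`, and if `y ∈ R'`
all terms vanish; assume `y ∉ R'`. Forward: `f_0 = single x 1`, `f_i =` row `x` of `T (dg U' T)^(i-1)`,
`f_{i+1} = (f_i restricted to U') ᵥ* T`: by GE and LAP and induction `∑ f_i² ≤ C max (L^(-d)) ((i K)^(-d/2))`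
(`∑ f_i ≤ 1`; `U'` is disjoint from `R`, where the next lap must start with `0`; killing decreases
the norm). Backward: the column `y` of `T (dg U' T)^(i-1)` is the row `y` of `Tᵀ (dg U' Tᵀ)^(i-1)`, and
`Tᵀ` is the kernel of the reversed environment with particles `R'` (REV), `y ∉ R'`, `U'` disjoint from
`R'`; the same bound. For `k ≥ 1`, `T (dg U T)^k = [T (dg U' T)^i] dg U' [T (dg U' T)^(k-1-i)]` with
`i = (k-1)/2`, and Cauchy-Schwarz: `≤ C (L^(-d) + (k K)^(-d/2))`. For `k = 0` split the lap at the unit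
`K₁ = K / 2` and use LAP for the windows of `K₁` and `K - K₁` units (SUB, the second one reversed).
Sum over `k`: `∑ w^(k+1) ≤ 1/(1-w)` and `∑ (k+1)^(-3/2) < ∞`. -/
def S_KER : Prop := ∀ d : ℕ, 3 ≤ d → ∃ (C m : ℕ), 1 ≤ C ∧ ∀ Z : ℕ, C ≤ Z →
  ∀ (L K lam r ρ κ₀ : ℕ) [NeZero L], lam ≤ Z → ρ ≤ Z → κ₀ + 1 ≤ Z → (L : ℝ) ^ d ≤ Real.exp Z →
  Z ^ m ≤ r → 8 * Z ^ m ≤ L → Z ^ m ≤ K → ∃ q₀ : ℕ, ∀ q ≥ q₀,
  ∀ σ : ℕ → (Fin d → ZMod L) × Fin d, Per σ → ∀ δ : ℝ, 1 ≤ δ * q → δ * q ≤ 2 →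
  ∀ (ω : ℕ → Bool) (R : Finset (Fin d → ZMod L)), Gd σ q K lam r ρ κ₀ ω R →
  ∀ (w : ℝ) (U : Finset (Fin d → ZMod L)) (x y : Fin d → ZMod L), 0 ≤ w → w < 1 →
  Disjoint U R → x ∉ R → x ∉ U → y ∉ U → ∀ N : ℕ,
  ∑ k ∈ Finset.range N, w ^ (k + 1) * (TT (ed ∘ σ) ω R δ (K * (q * ms d L)) *
    (dg U * TT (ed ∘ σ) ω R δ (K * (q * ms d L))) ^ k) x y ≤
    C * ((K : ℝ) ^ (-(d / 2 : ℝ)) + 1 / ((L : ℝ) ^ d * (1 - w)))

end Q292.LC
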