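import Pool.Agent.Q292.LC.Stm4

/-!
# Project LC, statements 5: properties of all particles (closeness of pairs, numbers of jumps)
-/

set_option autoImplicit false

namespace Q292.LC

open Finset Equiv Matrix

section defs

variable {d L : ℕ} [NeZero L]

/-- number of sweeps `s < S` at whose start the particles `x`, `y` have distance `≤ 3` -/
def clo (σ : ℕ → (Fin d → ZMod L) × Fin d) (S : ℕ) (ω : ℕ → Bool) (x y : Fin d → ZMod L) : ℕ :=
  ((Finset.range S).filter fun s =>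
    td (gp (ed ∘ σ) ω (s * ms d L) x) (gp (ed ∘ σ) ω (s * ms d L) y) ≤ 3).card

/-- all particles make at most `ρ` jumps per unit and all pairs are close at most `κ₀ q` times -/
def Om (σ : ℕ → (Fin d → ZMod L) × Fin d) (q K ρ κ₀ : ℕ) (ω : ℕ → Bool) : Prop :=
  (∀ j < K, ∀ a, jumps (ed ∘ σ) ω (j * (q * ms d L)) ((j + 1) * (q * ms d L)) a ≤ ρ) ∧
  (∀ a b, a ≠ b → clo σ (K * q) ω a b ≤ κ₀ * q)

end defs

open Classical in
/-- JMP. Number of jumps in a unit.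
Proof. Let `b = e^2`, `a = 1 + δ (b - 1)`. For a window of steps let `J` be the number of jumps and `T` the
number of touching steps of the particle. Then `E b^J a^(-T) = 1` (induction on the steps: a step
which touches the particle multiplies by `b / a` with probability `δ` and by `1 / a` with probability
`1 - δ`; whether step `k` touches depends on the coins `< k`). For one unit `T ≤ 2 d (q + J)` by TCH (for
the shifted circuit). So `E (b a^(-2d))^J ≤ a^(2 d q) ≤ exp (2 d δ q (b - 1)) ≤ exp (4 d b)`, and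
`b a^(-2d) ≥ e` if `δ` is small. Hence `E e^J ≤ C` and Markov's inequality. -/
def S_JMP : Prop := ∀ d : ℕ, 1 ≤ d → ∃ C : ℝ, 1 ≤ C ∧ ∀ (L : ℕ) [NeZero L], 3 ≤ L →
  ∀ σ : ℕ → (Fin d → ZMod L) × Fin d, Per σ → ∀ (q K j ρ : ℕ) (δ : ℝ) (x : Fin d → ZMod L),
  0 < δ → C * δ ≤ 1 → δ * q ≤ 2 → j < K →
  EE (K * (q * ms d L)) δ (fun ω => if ρ < jumps (ed ∘ σ) ω (j * (q * ms d L))
    ((j + 1) * (q * ms d L)) x then 1 else 0) ≤ C * Real.exp (-(ρ : ℝ))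

/-- PAI. Negative correlation of two particles (for products of the same function).
Proof. Induction on `n` for all `f ≥ 0`. Last step with end points `a, b` (if `a = b` nothing happens):
the mean over the last coin of `f(X') f(Y')`, given the positions `X ≠ Y` before, is
`(1 - δ) f X f Y + δ f (τ X) f (τ Y)`. Put `f' = (1 - δ) f + δ f ∘ τ = fr δ (a, b) *ᵥ f`. If at most one of
`X, Y` is in `{a, b}` the mean equals `f' X f' Y`. If `{X, Y} = {a, b}` it is `f a f b`, and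
`f' a f' b = f a f b (1 - 2 δ + 2 δ²) + δ (1 - δ) ((f a)² + (f b)²) ≥ f a f b`. So the expectation for `f` and
`n + 1` steps is at most the one for `f'` and `n` steps, and `PP (n+1) f = PP n f'`. -/
def S_PAI : Prop := ∀ (V : Type) [Fintype V] [DecidableEq V] (e : ℕ → V × V) (n : ℕ) (δ : ℝ)
  (f : V → ℝ) (x y : V), 0 ≤ δ → δ ≤ 1 → (∀ v, 0 ≤ f v) → x ≠ y →
  EE n δ (fun ω => f (gp e ω n x) * f (gp e ω n y)) ≤
    (PP e δ n *ᵥ f) x * (PP e δ n *ᵥ f) y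

/-- CLO. Expected closeness.
Proof. `1[td X Y ≤ 3] ≤ ∑_z 1[X ∈ bal z 3] 1[Y ∈ bal z 3]` (take `z = X`), so by PAI with
`f = 1_(bal z 3)`, `P(td ≤ 3 at the start of sweep s) ≤ ∑_z p_s(x, bal z 3) p_s(y, bal z 3) ≤
(7^d sup p_s) ∑_z p_s(y, bal z 3) ≤ 7^(2d) sup p_s`, `p_s = PP (s ms)`; with FRE (a):
`≤ C ((1 + s δ)^(-d/2) + L^(-d))`. Sum over `s < K q`: `∑_s (1 + s δ)^(-3/2) ≤ 1 + C / δ ≤ C q`, and
`K q L^(-d) ≤ q`. -/
def S_CLO : Prop := ∀ d : ℕ, 3 ≤ d → ∃ C : ℕ, 1 ≤ C ∧ ∀ (L : ℕ) [NeZero L], 3 ≤ L → ∀ K : ℕ,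
  K ≤ L ^ d → ∃ q₀ : ℕ, ∀ q ≥ q₀, ∀ σ : ℕ → (Fin d → ZMod L) × Fin d, Per σ → ∀ δ : ℝ,
  1 ≤ δ * q → δ * q ≤ 2 → ∀ x y, x ≠ y →
  EE (K * (q * ms d L)) δ (fun ω => (clo σ (K * q) ω x y : ℝ)) ≤ C * q

open Classical in
/-- KHA. Exponential tail of the closeness.
Proof. By the Markov property (the coins of different sweeps are independent, all sweeps use the
same edges; BAS1 (1), BAS3) CLO gives for all pairs and all starting sweeps: expected number of close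
sweeps among the remaining ones `≤ C q =: B` (for windows of fewer units use monotonicity in `K`).
Hence `E[binomial (clo, m)] ≤ B^m`: induction on `m` over the first of the `m` chosen close sweeps
(split at its start; `binomial (clo, m) = ∑_{s close} binomial (number of close sweeps after s,
m - 1)`). By Markov's inequality `P(clo > z) ≤ B^m / binomial (z, m)`, and with `z = 4 B m`:
`binomial (z, m) ≥ (z / m)^m = (4 B)^m`. So `P(clo > 4 C m q) ≤ 4^(-m)`. -/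
def S_KHA : Prop := ∀ d : ℕ, 3 ≤ d → ∃ C : ℕ, 1 ≤ C ∧ ∀ (L : ℕ) [NeZero L], 3 ≤ L → ∀ K : ℕ,
  K ≤ L ^ d → ∃ q₀ : ℕ, ∀ q ≥ q₀, ∀ σ : ℕ → (Fin d → ZMod L) × Fin d, Per σ → ∀ δ : ℝ,
  1 ≤ δ * q → δ * q ≤ 2 → ∀ x y, x ≠ y → ∀ m : ℕ,
  EE (K * (q * ms d L)) δ (fun ω => if C * m * q < clo σ (K * q) ω x y then 1 else 0) ≤
    (1 / 2) ^ m

open Classical in
/-- OMP. All particles are regular with large probability.
Proof. Union bound with JMP (over `x` and `j < K`) and KHA (over the pairs), `m = ⌊κ₀ / C⌋`, BAS3. -/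
def S_OMP : Prop := ∀ d : ℕ, 3 ≤ d → ∃ C : ℕ, 1 ≤ C ∧ ∀ (L : ℕ) [NeZero L], 3 ≤ L → ∀ K : ℕ,
  K ≤ L ^ d → ∀ ρ κ₀ : ℕ, ∃ q₀ : ℕ, ∀ q ≥ q₀, ∀ σ : ℕ → (Fin d → ZMod L) × Fin d, Per σ →
  ∀ δ : ℝ, 1 ≤ δ * q → δ * q ≤ 2 →
  EE (K * (q * ms d L)) δ (fun ω => if Om σ q K ρ κ₀ ω then 0 else 1) ≤
    C * ((L : ℝ) ^ (2 * d) * Real.exp (-(ρ : ℝ)) + (L : ℝ) ^ (2 * d) * (1 / 2) ^ (κ₀ / C))

/-- OMR. Rotation of the regular event; good environments.
Proof. ROT: in the rotated circuit the particle which starts at `gp .. (j units) x` runs through the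
units `j, ..., K - 1` of the particle `x` and then through the units `0, ..., j - 1` of the particle
`gp .. n x`. So jumps per unit are bounded by `ρ`, and the number of close sweeps of a pair is the sum
of two numbers for two pairs of different particles of the original circuit: `≤ 2 κ₀ q`. -/
def S_OMR : Prop := ∀ (d L : ℕ) [NeZero L], 1 ≤ d → 3 ≤ L →
  ∀ σ : ℕ → (Fin d → ZMod L) × Fin d, Per σ → ∀ (q K lam r ρ κ₀ j : ℕ) (ω : ℕ → Bool), 1 ≤ q →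
  j < K → Om σ q K ρ κ₀ ω → ∀ R : Finset (Fin d → ZMod L),
  ¬ viol (ed ∘ σ) (q * ms d L) K (fun v => bal v r) lam
    (rot (K * (q * ms d L)) (j * (q * ms d L)) ω) R →
  Gd σ q K lam r ρ (2 * κ₀) (rot (K * (q * ms d L)) (j * (q * ms d L)) ω) R

/-- GDM. Good environments: measurability and heredity.
Proof. All conditions only involve `gp e ω k a` for `a ∈ R`, `k ≤ n = K q ms`, and the jumps of `a ∈ R`
in steps `< n`; BAS1 (3). Subsets: all conditions are monotone. -/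
def S_GDM : Prop := ∀ (d L : ℕ) [NeZero L] (σ : ℕ → (Fin d → ZMod L) × Fin d)
  (q K lam r ρ κ₀ : ℕ),
  (∀ R, Rmeas (ed ∘ σ) (K * (q * ms d L)) R (fun ω => Gd σ q K lam r ρ κ₀ ω R)) ∧
  (∀ ω R R', R' ⊆ R → Gd σ q K lam r ρ κ₀ ω R → Gd σ q K lam r ρ κ₀ ω R')

/-- BAD. The marked particles are sparse with large probability.
Proof. BADP with `u = q ms`, `B v = bal v r` (`|bal v r| ≤ (2 r + 1)^d`), `Om` from above and `Gd` with
`2 κ₀` (OMR, GDM), `κ = C (K^(-d/2) + 1/(L^d (1 - w)))`: the hypothesis on `bd` follows from KER (for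
`w' ≤ w`: `1/(1-w') ≤ 1/(1-w)`) and GRN (`TT` is nonnegative with row sums `1`). The binomial
coefficient is at most `b^(lam+1)`. -/
def S_BAD : Prop := ∀ d : ℕ, 3 ≤ d → ∃ (C m : ℕ), 1 ≤ C ∧ ∀ Z : ℕ, C ≤ Z →
  ∀ (L K lam r ρ κ₀ : ℕ) [NeZero L], lam ≤ Z → ρ ≤ Z → 2 * κ₀ + 1 ≤ Z →
  (L : ℝ) ^ d ≤ Real.exp Z → Z ^ m ≤ r → 8 * Z ^ m ≤ L → Z ^ m ≤ K → ∃ q₀ : ℕ, ∀ q ≥ q₀,
  ∀ σ : ℕ → (Fin d → ZMod L) × Fin d, Per σ → ∀ δ : ℝ, 1 ≤ δ * q → δ * q ≤ 2 →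
  ∀ w : ℝ, 0 ≤ w → w < 1 → ∀ κ : ℝ,
  κ = C * ((K : ℝ) ^ (-(d / 2 : ℝ)) + 1 / ((L : ℝ) ^ d * (1 - w))) → (lam + 2) * κ ≤ 1 →
  PW (ed ∘ σ) (K * (q * ms d L)) δ w (fun ω A => Om σ q K ρ κ₀ ω ∧
    viol (ed ∘ σ) (q * ms d L) K (fun v => bal v r) lam ω A) ≤
    K * (L : ℝ) ^ (2 * d) * (lam + 1) * ((2 * r + 1 : ℕ) : ℝ) ^ d *
      (((2 * r + 1 : ℕ) : ℝ) ^ d * ((lam + 2) * κ)) ^ lam

end Q292.LC
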