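import Pool.Agent.Q292.LC.Stm5
import Pool.Agent.Y998.ST.Torus

/-!
# Project LC, statements 6: heat kernel of the torus, circuits and stirring
-/

set_option autoImplicit false

namespace Q292.LC

open Finset Equiv Matrix
open Pool.Agent.Y998.ST (stirExp nnRate qq)

/-- HKT. Tail of the heat kernel.
Proof. `h(v) = cosh (θ v.valMinAbs)` on `ℤ / L`, `0 < θ ≤ 1`: `h (v + 1) + h (v - 1) ≤ 2 cosh θ h v` (if
`|valMinAbs|` of `v ± 1` is not `||valMinAbs v| ± 1|` it is smaller). So `H(y) = ∏_i h (y_i - x_i)`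
satisfies `∑_{y'~y} (H y' - H y) ≤ 2 d (cosh θ - 1) H y ≤ 2 d θ² H y`, and by `qq_deriv` and Gronwall
`∑_y qq t x y H y ≤ exp (2 d θ² t)`. With `θ = 1 / √(t + 1)`: `≤ e^(2d)`. And
`H y ≥ ∏ exp (θ |y_i - x_i|) / 2 = 2^(-d) exp (θ td x y)`; Markov's inequality. (Or coordinatewise:
`qq_eq_hk` gives `qq` as a product of one-dimensional kernels `gk`.) -/
def S_HKT : Prop := ∀ d : ℕ, 1 ≤ d → ∃ C : ℝ, 1 ≤ C ∧ ∀ (L : ℕ) [NeZero L], 3 ≤ L →
  ∀ t : ℝ, 0 ≤ t → ∀ (D : ℕ) (x : Fin d → ZMod L),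
  ∑ y ∈ univ.filter (fun y => D < td x y), qq (nnRate d L) t x y ≤
    C * Real.exp (-(D / (C * Real.sqrt (t + 1))))

/-- HKL. Lower bound of the heat kernel.
Proof. `qq t x y = ∏_i gk L t (x_i - y_i)` (`qq_eq_hk`), so it is enough to show
`gk L t v ≥ c / √t` for `1 ≤ t ≤ 2 L²`, `|v| ≤ c √t` (`|v| = |valMinAbs v|`). (1) By HKT for `d = 1` there
is `C` with `∑_{|v| ≤ C √t} gk L (t/2) v ≥ 1/2`, so by Cauchy-Schwarz and the semigroup property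
`gk L t 0 = ∑_v gk(t/2, v)² ≥ (1/2)² / (2 C √t + 1) ≥ c₁ / √t`. (2) `gk L t v = (1/L) ∑_k e^(-t lam k)
rc (k v)`, `1 - cos (n θ) ≤ n² (1 - cos θ)`, `lam k = 2 - 2 rc k`, so
`gk t 0 - gk t v ≤ (v²/2) (1/L) ∑_k lam_k e^(-t lam_k) ≤ (v²/2) (2/(e t)) ... ≤ (v²/t) gk (t/2) 0 ≤
(v²/t) (1/L + √2/√t) ≤ 4 v² / t^(3/2)` (`s e^(-s) ≤ e^(-s/2)`, `gk_le`, `1/L ≤ √2/√t`). For
`|v| ≤ c √t` with `4 c² ≤ c₁ / 2` this is at most `gk t 0 / 2`. -/
def S_HKL : Prop := ∀ d : ℕ, 1 ≤ d → ∃ C : ℝ, 1 ≤ C ∧ ∀ (L : ℕ) [NeZero L], 3 ≤ L →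
  ∀ t : ℝ, 1 ≤ t → t ≤ 2 * (L : ℝ) ^ 2 → ∀ x y : Fin d → ZMod L,
  (td x y : ℝ) ≤ Real.sqrt t / C → t ^ (-(d / 2 : ℝ)) / C ≤ qq (nnRate d L) t x y

/-- TRO. Circuits and stirring.
Proof. For a function `F` with `|F| ≤ 1` let `(A F)(g) = E F(h g)`, `h` the permutation of one sweep
(`h = ` the product of the swaps of the edges with coin `true`), and `(B F)(g) = stirExp δ (h ↦ F (h g))`.
Both are contractions for the sup norm. One sweep and `stirExp δ` differ by at most `C_L δ²`: in both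
cases the probability of two or more swaps is `≤ C_L δ²`, the probability of exactly the swap of a
given edge is `δ + O(δ²)`, of none `1 - ms δ + O(δ²)`. By the semigroup property of stirring
(`stirExp (s + t) F = stirExp s (g ↦ stirExp t (h ↦ F (h g)))`, up to the order of the factors, which
does not matter because all powers of one generator commute, see law_eq, E_add in
Pool.Agent.Y998.ST) the difference after `s ≤ K q` sweeps is at most `s C_L δ² ≤ K q C_L 4 / q²`.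
The second claim is the first one with `F g = 1[g x = y]`, because
`EE n δ (pm (gp e ω n) x y) = PP e δ n x y` (induction on `n` with BAS3 (5)). -/
def S_TRO : Prop := ∀ (d L : ℕ) [NeZero L], 1 ≤ d → 3 ≤ L → ∀ K : ℕ, ∃ C : ℝ, ∀ q : ℕ, 1 ≤ q →
  ∀ σ : ℕ → (Fin d → ZMod L) × Fin d, Per σ → ∀ δ : ℝ, 0 ≤ δ → δ ≤ 1 → δ * q ≤ 2 →
  ∀ s ≤ K * q,
  (∀ F : Perm (Fin d → ZMod L) → ℝ, (∀ g, |F g| ≤ 1) →
    |EE (s * ms d L) δ (fun ω => F (gp (ed ∘ σ) ω (s * ms d L))) -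
      stirExp (nnRate d L) (s * δ) F| ≤ C / q) ∧
  (∀ x y, |PP (ed ∘ σ) δ (s * ms d L) x y - qq (nnRate d L) (s * δ) x y| ≤ C / q)

end Q292.LC
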