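import Pool.Agent.Q292.LC.Stm6

/-!
# Project LC, statements 7: unmarked cycles are spread uniformly, tails, locality
-/

set_option autoImplicit false

namespace Q292.LC

open Finset Equiv Matrix
open Pool.Agent.Y998.ST (stirExp nnRate qq)

section defs

variable {V : Type} [Fintype V] [DecidableEq V]

/-- Expectation of `F (ω, A)`, `A` the set of marked particles (compare `PW`). -/
noncomputable def PE (e : ℕ → V × V) (n : ℕ) (δ w : ℝ) (F : (ℕ → Bool) → Finset V → ℝ) : ℝ :=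
  EE n δ fun ω => ∑ A : Finset V, if Inv (gp e ω n) A then
    w ^ A.card * dS w (univ \ A) (pm (gp e ω n)) * F ω A else 0

open Classical in
/-- the points of `A` and the points with large contact number -/
noncomputable def Dmg (e : ℕ → V × V) (ω : ℕ → Bool) (A : Finset V) (δ ε : ℝ) (n : ℕ) : Finset V :=
  univ.filter fun x => x ∈ A ∨ ε < cc e ω A δ n x

variable {d L : ℕ} [NeZero L]

/-- the uniform distribution on `box z r \ Dm` -/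
noncomputable def chi (r : ℕ) (Dm : Finset (Fin d → ZMod L)) (z x : Fin d → ZMod L) : ℝ :=
  if x ∈ box z r \ Dm then 1 / ((box z r \ Dm).card : ℝ) else 0

/-- minus its mean over `z` -/
noncomputable def phz (r : ℕ) (Dm : Finset (Fin d → ZMod L)) (z x : Fin d → ZMod L) : ℝ :=
  chi r Dm z x - (∑ z' : Fin d → ZMod L, chi r Dm z' x) / (L : ℝ) ^ d

open Classical in
/-- the probability that two random points of a random box of side `r` are in the same cycle -/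
noncomputable def Qb (r : ℕ) (g : Perm (Fin d → ZMod L)) : ℝ :=
  (∑ z : Fin d → ZMod L, ∑ x ∈ box z r, ∑ y ∈ box z r, if g.SameCycle x y then (1 : ℝ) else 0) /
    ((L : ℝ) ^ d * (r : ℝ) ^ (2 * d))

open Classical in
/-- the probability that two random points of the torus are in the same cycle -/
noncomputable def Qv (g : Perm (Fin d → ZMod L)) : ℝ :=
  (∑ x : Fin d → ZMod L, ∑ y : Fin d → ZMod L, if g.SameCycle x y then (1 : ℝ) else 0) /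
    (L : ℝ) ^ (2 * d)

end defs

open Classical in
/-- PEB. Basic facts on `PE`.
Proof. All weights `w^|A| dS w (univ \ A) (pm g)` are `≥ 0` (P4 (1)) and their sum over the invariant
`A` is `1` (P1 with `X = ∅`); BAS3. (6) with `C = cyc g x`: the invariant sets which contain `x` are
`C ∪ A'`, `A'` invariant and disjoint from `C`, `|C ∪ A'| = |C| + |A'|`, so their weights sum up to
`w^|C| * ∑_{A'} w^|A'| dS w (univ \ (A' ∪ C)) (pm g) = w^|C|` by P1 with `X = C`. -/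
def S_PEB : Prop := ∀ (V : Type) [Fintype V] [DecidableEq V] (e : ℕ → V × V) (n : ℕ) (δ w : ℝ),
  0 ≤ δ → δ ≤ 1 → 0 ≤ w → w < 1 →
  (∀ F : (ℕ → Bool) → ℝ, PE e n δ w (fun ω _ => F ω) = EE n δ F) ∧
  (∀ F G, PE e n δ w (fun ω A => F ω A + G ω A) = PE e n δ w F + PE e n δ w G) ∧
  (∀ (c : ℝ) F, PE e n δ w (fun ω A => c * F ω A) = c * PE e n δ w F) ∧
  (∀ F G : (ℕ → Bool) → Finset V → ℝ, (∀ ω A, Inv (gp e ω n) A → F ω A ≤ G ω A) →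
    PE e n δ w F ≤ PE e n δ w G) ∧
  (∀ B : (ℕ → Bool) → Finset V → Prop,
    PE e n δ w (fun ω A => if B ω A then 1 else 0) = PW e n δ w B) ∧
  (∀ x, PW e n δ w (fun _ A => x ∈ A) = EE n δ (fun ω => w ^ (cyc (gp e ω n) x).card))

/-- MRK. A point is marked.
Proof. ARC with `X = I = {x}`: `Sh {x} {x} g R` holds iff `x ∈ R` and `Inv g R` (for a finite set
`g a ∈ R` for all `a ∈ R` implies `g⁻¹ a ∈ R`), and then `R ∪ {x} = R`; so `WW .. {x} {x} = PW ..`. -/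
def S_MRK : Prop := ∀ (V : Type) [Fintype V] [DecidableEq V] (e : ℕ → V × V) (n : ℕ) (δ w κ : ℝ)
  (Gd : (ℕ → Bool) → Finset V → Prop), 0 ≤ δ → δ ≤ 1 → 0 ≤ w → w < 1 → 0 ≤ κ →
  (∀ R, Rmeas e n R (fun ω => Gd ω R)) → (∀ ω R R', R' ⊆ R → Gd ω R → Gd ω R') →
  (∀ ω R, Gd ω R → ∀ U : Finset V, Disjoint U R → ∀ x, x ∉ R → x ∉ U → ∀ y, y ∉ U →
    bd w U (TT e ω R δ n) x y - dS w U (TT e ω R δ n) ≤ κ * dS w U (TT e ω R δ n)) →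
  ∀ x : V, PW e n δ w (fun ω A => x ∈ A ∧ Gd ω A) ≤ κ

open Classical in
/-- RES. Resolvent bound for the unmarked cycles.
Proof. Fix `A`, `U = univ \ A`; put `Θ(ω) = 1[Inv g A ∧ B ω A] w^|A|`, `φ = φ ω A` (both `Rmeas e n A`:
`Inv g A` only involves `g a` for `a ∈ A`, BAS1 (3)). By L1, once with `X = 1 + φ φᵀ` and once with
`X = 1`, always `Y = - w dg U`: `E Θ det (1 + φ φᵀ - w dg U P) = E Θ det (1 + φ φᵀ - w dg U T)` and the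
same without `φ φᵀ`, `P = pm g`, `T = TT e ω A δ n`. Matrix determinant lemma:
`det (M + φ φᵀ) = det M (1 + φᵀ M⁻¹ φ)`; `det M > 0` for both matrices (GRN). Subtract:
`E Θ dS(P) φᵀ M_P⁻¹ φ = E Θ dS(T) φᵀ M_T⁻¹ φ ≤ Λ E Θ dS(T) = Λ E Θ dS(P)`.
Lower bound for the left side, `Inv g A`: let `f = M_P⁻¹ φ`, so `f a = φ a = 0` for `a ∈ A`,
`f x - w f (g x) = φ x` for `x ∈ U`. On a cycle `C ⊆ U`: `∑_C φ = (1 - w) ∑_C f`, so (Cauchy-Schwarz)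
`∑_{x ∈ U} s x² ≤ (1 - w)² ∑ f²`, `s x` the mean of `φ` over the cycle of `x`. And
`φᵀ f = ∑_U f² - w ∑_U f x f (g x) ≥ (1 - w) ∑ f²`. So `∑_{x ∈ U} (s x)² ≤ (1 - w) φᵀ M_P⁻¹ φ`.
Sum over `A`; the total mass is `1` (P1). -/
def S_RES : Prop := ∀ (V : Type) [Fintype V] [DecidableEq V] (e : ℕ → V × V) (n : ℕ)
  (δ w Λ : ℝ) (B : (ℕ → Bool) → Finset V → Prop) (φ : (ℕ → Bool) → Finset V → V → ℝ),
  0 ≤ δ → δ ≤ 1 → 0 ≤ w → w < 1 → 0 ≤ Λ →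
  (∀ A, Rmeas e n A (fun ω => B ω A)) → (∀ A, Rmeas e n A (fun ω => φ ω A)) →
  (∀ ω A, ∀ a ∈ A, φ ω A a = 0) →
  (∀ ω A, Inv (gp e ω n) A → B ω A →
    φ ω A ⬝ᵥ ((1 - w • (dg (univ \ A) * TT e ω A δ n))⁻¹ *ᵥ φ ω A) ≤ Λ) →
  PE e n δ w (fun ω A => if B ω A then ∑ x ∈ univ \ A,
    ((∑ y ∈ cyc (gp e ω n) x, φ ω A y) / ((cyc (gp e ω n) x).card : ℝ)) ^ 2 else 0) ≤ (1 - w) * Λ

/-- ENG. Resolvent and energy.
Proof. Let `M = 1 - w dg U T`, `U = univ \ A` (invertible: GRN), `f = M⁻¹ φ`. Row `a ∈ A` of `M f = φ`: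
`f a = φ a = 0`; row `x ∈ U`: `f x - w (T f) x = φ x`. Hence `φ · f = ∑ f² - w ∑_{x,y} T x y f x f y`.
`T` is doubly stochastic (BAS2), so `𝓔 := ∑_{x,y} T x y (f x - f y)² = 2 ∑ f² - 2 ∑ T x y f x f y` and
`X := φ · f = (1 - w) ∑ f² + (w/2) 𝓔 ≥ 𝓔 / 4`. By hypothesis `X² ≤ Λ 𝓔 ≤ 4 Λ X`, so `X ≤ 4 Λ`. -/
def S_ENG : Prop := ∀ (V : Type) [Fintype V] [DecidableEq V] (e : ℕ → V × V) (ω : ℕ → Bool)
  (A : Finset V) (n : ℕ) (δ w Λ : ℝ) (φ : V → ℝ), 0 ≤ δ → δ ≤ 1 → 1 / 2 ≤ w → w < 1 → 0 ≤ Λ →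
  (∀ a ∈ A, φ a = 0) →
  (∀ f : V → ℝ, (φ ⬝ᵥ f) ^ 2 ≤ Λ * ∑ x, ∑ y, TT e ω A δ n x y * (f x - f y) ^ 2) →
  φ ⬝ᵥ ((1 - w • (dg (univ \ A) * TT e ω A δ n))⁻¹ *ᵥ φ) ≤ 4 * Λ

/-- DME. The damaged set depends only on the coins of the steps which touch `A`.
Proof. The terms of `cc` with `tch e ω A k` false vanish; `tch` and the coins of touched steps agree
(BAS1 (3)); `PP` does not depend on `ω`. -/
def S_DME : Prop := ∀ (V : Type) [Fintype V] [DecidableEq V] (e : ℕ → V × V) (n : ℕ)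
  (A : Finset V) (δ ε : ℝ), Rmeas e n A (fun ω => Dmg e ω A δ ε n)

/-- DYA. The mean over a box and the mean over all boxes, `d ≥ 3`.
Proof. For `M ≥ 1` with `M r ≤ L` let `h_M(z)` be the mean of `f` over `box z (M r) \ Dm`; this set has
at least `(M r)^d / 2` points (the box is the disjoint union of `M^d` boxes of side `r`). `E` denotes the
double sum on the right. For `M ≤ M' ≤ 2 M`, `M' r ≤ L`: by Jensen
`(h_M z - h_M' z)² ≤ (4 / ((M r)^d (M' r)^d)) ∑_{x, y ∈ box z (M' r) \ Dm} (f x - f y)² ≤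
4 C_POI M'^(d+2) E / ((M r)^d (M' r)^d) ≤ 16 C_POI M^(2-d) E / r^(2d)` (POI). Along `1, 2, 4, ..., 2^J, M₀`
with `M₀ = ⌊L / r⌋ ≥ 4` and `2^J ≤ M₀ < 2^(J+1)` the square roots `≤ 4 √(C_POI E) r^(-d) 2^(-j/2)` sum up
to a constant times `√E r^(-d)` because `d ≥ 3`. So `(h_1 z - h_(M₀) z)² ≤ C E / r^(2d)`. Top scale: the
boxes of side `M₀ r > L - r ≥ 3 L / 4` at `z` and at `z'`: in each coordinate the complement of either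
arc has length `< r`, so the common part contains an arc of length `≥ (L - 2 r) / 2 ≥ L / 4 ≥ r`; so the
two boxes have a common box of side `M₁ r`, `M₁ = ⌊L / (4 r)⌋ ≥ 1`, `M₁ r ≥ L / 8`. With `h'` the mean over
this box minus `Dm`, POI in `box z (M₀ r)` gives `(h_(M₀) z - h')² ≤ C L^(-2d) M₀^(d+2) E ≤ C E / r^(2d)`,
and the same for `z'`. Together `(h_1 z - h_1 z')² ≤ C E / r^(2d)` for all `z, z'`, and
`∑_x phz r Dm z x f x = h_1 z - mean of h_1 = mean over z' of (h_1 z - h_1 z')`; Jensen. -/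
def S_DYA : Prop := ∀ d : ℕ, 3 ≤ d → ∃ C : ℝ, 1 ≤ C ∧ ∀ (L : ℕ) [NeZero L] (r : ℕ),
  1 ≤ r → 4 * r ≤ L → ∀ Dm : Finset (Fin d → ZMod L),
  (∀ v, 2 * (Dm ∩ box v r).card ≤ r ^ d) → ∀ (f : (Fin d → ZMod L) → ℝ) (z : Fin d → ZMod L),
  (phz r Dm z ⬝ᵥ f) ^ 2 ≤ C / (r : ℝ) ^ (2 * d) *
    ∑ x, ∑ y, (if x ∉ Dm ∧ y ∉ Dm ∧ td x y ≤ 2 * d * r then (f x - f y) ^ 2 else 0)

/-- CNT. Covering of a ball by small balls.
Proof. Let `m = r₁ / d ≥ 1`. For `x ∈ bal z R` let `v_i = (x_i - z_i).valMinAbs`, `|v_i| ≤ R`,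
`k_i = ⌊v_i / m⌋ ∈ [- (R/m) - 1, R/m]` (at most `2 (R/m) + 2` values), `c_i = z_i + m k_i`; then
`x_i - c_i` is the class of a number in `[0, m)`, so `td c x ≤ d m ≤ r₁`. Hence `bal z R` is covered by
at most `(2 (R/m) + 3)^d` balls of radius `r₁`. -/
def S_CNT : Prop := ∀ (d L : ℕ) [NeZero L], 1 ≤ d → 3 ≤ L →
  ∀ (S : Finset (Fin d → ZMod L)) (r₁ R lam : ℕ), d ≤ r₁ → (∀ v, (S ∩ bal v r₁).card ≤ lam) →
  ∀ z, (S ∩ bal z R).card ≤ lam * (2 * (R / (r₁ / d)) + 3) ^ d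

/-- LAM. In a good environment the damaged set is sparse in all boxes of side `r` and the resolvent
form of `phz` is small.
Proof. `C_f` from FRE, `C_D` from DYA, `n = K q ms`, `√K` large. (a) `p = K^(-d/2) / C_f`,
`ℓ = ⌊√K / (2 C_f)⌋`: `p ≤ PP n x y` for `td x y ≤ 2 ℓ` (FRE (c) with `u = K ≤ L²`). (b) `bal 0 ℓ` contains a
box of side `⌊ℓ/d⌋ + 1`, so `p |bal 0 ℓ| ≥ 1 / (C_f (4 d C_f)^d) =: 8 ε` (if `√K ≥ 4 C_f`). (c) For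
`C ≥ 8 d C_f`, `h ≥ C`: `2 d r ≤ ℓ`. `4 r ≤ L`. `√K / (2 h) ≤ r`, in particular `r ≥ 1`. (d) Size of
`Dm = Dmg ..`: `box v r ⊆ bal v (d r)`. Let `D = ⌈C_f √K (Z + log C_f)⌉`,
`τ = C_f exp (-D / (C_f √K)) ≤ exp (-Z)`, so `τ |A| ≤ 1`; CON2 with `u = K`, `B = d r` (hypothesis on the
tails: FRE (b) with `u = K`): `∑_{x ∈ bal v (d r)} cc x ≤ (8 ρ + 16 d) ∑_{j < K} (|A_j ∩ bal v R'| + 1)`,
`R' = d r + D + ρ + 1 ≤ C' √K Z`, and by `¬ viol` and CNT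
`|A_j ∩ bal v R'| ≤ Z (2 (R' / (r₁/d)) + 3)^d ≤ C' Z^(d+1) K^(d/2) / r₁^d ≤ C' 2^d Z^(d+1) K^(d/2 - 9/8)`
(`r₁² ≤ K Z²` is used to absorb the `3`; `(2 r₁)^d ≥ K^(9/8)`). So the number of `x ∈ box v r` with
`cc x > ε` is at most `C' Z^(d+2) K^(d/2 - 1/8) / ε`, and `|A ∩ box v r|` is at most the count for `j = 0`;
together `≤ η (√K / (2 h))^d ≤ η r^d` by the last hypothesis on `K`, if `C` is large enough. (e) NEA (2)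
(`2 d r ≤ ℓ`, `x ∉ Dm` means `x ∉ A` and `cc x ≤ ε`), DYA (`η ≤ 1/2`): for all `f`,
`(phz z · f)² ≤ (C_D / r^(2d)) (16 / p) ∑ T x y (f x - f y)²`; `phz` vanishes on `A ⊆ Dm`; ENG. -/
def S_LAM : Prop := ∀ d : ℕ, 3 ≤ d → ∃ (C : ℕ) (ε : ℝ), 1 ≤ C ∧ 0 < ε ∧ ∀ h : ℕ, C ≤ h →
  ∀ Z : ℕ, 1 ≤ Z → ∀ η : ℝ, 0 < η → η ≤ 1 / 2 → ∀ (L K lam r₁ ρ κ₀ : ℕ) [NeZero L],
  lam ≤ Z → ρ ≤ Z → (L : ℝ) ^ d ≤ Real.exp Z → 3 ≤ L → K ≤ L ^ 2 → d ≤ r₁ →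
  K ^ 9 ≤ (2 * r₁) ^ (8 * d) → r₁ ^ 2 ≤ K * Z ^ 2 →
  ((C : ℝ) * (Z : ℝ) ^ (d + 2) * (h : ℝ) ^ d / η) ^ 8 ≤ K → ∃ q₀ : ℕ, ∀ q ≥ q₀,
  ∀ σ : ℕ → (Fin d → ZMod L) × Fin d, Per σ → ∀ δ : ℝ, 1 ≤ δ * q → δ * q ≤ 2 →
  ∀ (ω : ℕ → Bool) (A : Finset (Fin d → ZMod L)), Gd σ q K lam r₁ ρ κ₀ ω A →
  ∀ r : ℕ, r = Nat.sqrt K / h → ∀ Dm, Dm = Dmg (ed ∘ σ) ω A δ ε (K * (q * ms d L)) →
  1 ≤ r ∧ 4 * r ≤ L ∧ Real.sqrt K ≤ 2 * h * r ∧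
  (∀ v, ((Dm ∩ box v r).card : ℝ) ≤ η * (r : ℝ) ^ d) ∧
  ∀ (z : Fin d → ZMod L) (w : ℝ), 1 / 2 ≤ w → w < 1 →
    phz r Dm z ⬝ᵥ ((1 - w • (dg (univ \ A) * TT (ed ∘ σ) ω A δ (K * (q * ms d L))))⁻¹ *ᵥ
      phz r Dm z) ≤ C * (K : ℝ) ^ (d / 2 : ℝ) / (r : ℝ) ^ (2 * d)

/-- DVA. Boxes and the torus.
Proof. For a set `C` put `a_z C = |C ∩ box z r| / r^d`, `c C = |C| / L^d`. Every point is in exactly `r^d`
boxes, so `c C` is the mean of `a_z C` over `z`. Sums over the cycles `C` of `g` (write them as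
`∑_x (..)(cyc g x) / |cyc g x|`): `Qb r g = mean_z ∑_C (a_z C)²`, `Qv g = ∑_C (c C)²`, so
`Qb r g - Qv g = mean_z ∑_C (a_z C - c C)²`. Cycles in `A`: `(a - c)² ≤ a² + c² ≤ a + c`, their sum is
at most `a_z A + c A`, with mean `2 |A| / L^d`. Cycles not in `A` (disjoint from `A`): with
`b_z x = 1[x ∈ box z r] / r^d - chi z x`, `a_z C - c C = ∑_C phz z + ∑_C b_z - mean_z' ∑_C b_z'`, square
`≤ 3 (..)² + 3 (..)² + 3 (..)²`; `∑_C (∑_C b)² ≤ (∑_x |b x|)² ≤ (2 η)²`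
(`∑_x |b_z x| = 2 |Dm ∩ box z r| / r^d`), and `∑_C (∑_C phz z)² = ∑_{x ∉ A} |C_x| (s_z x)² ≤
L^d ∑_{x ∉ A} (s_z x)²`, `s_z x` the mean of `phz z` over the cycle of `x`. -/
def S_DVA : Prop := ∀ (d L : ℕ) [NeZero L], 1 ≤ d → ∀ (g : Perm (Fin d → ZMod L))
  (A Dm : Finset (Fin d → ZMod L)) (r : ℕ) (η : ℝ), 1 ≤ r → r ≤ L → Inv g A → A ⊆ Dm →
  0 ≤ η → η ≤ 1 / 2 → (∀ v, ((Dm ∩ box v r).card : ℝ) ≤ η * (r : ℝ) ^ d) →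
  Qb r g ≤ Qv g + 3 * ∑ z, ∑ x ∈ univ \ A,
    ((∑ y ∈ cyc g x, phz r Dm z y) / ((cyc g x).card : ℝ)) ^ 2 + 24 * η ^ 2 +
    2 * A.card / (L : ℝ) ^ d

/-- QLO. The local law.
Proof. `x, y ∈ box z r`: `tdist x y = td x y ≤ d r`. For `x ≠ y`,
`|stirExp t (1[SameCycle x y]) - 1/2| ≤ 2 NN t (swap x y) ≤ 2 C d r / √t` by `two_points`
(Pool.Agent.Results.MP_b817cf_pr.LocalPoissonDirichlet) and `t_dist` (Pool.Agent.Y998.LQ.Final), see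
`P2_base` in Pool.Agent.Q287.SD.Ind; for `x = y` it is `1`. -/
def S_QLO : Prop := ∀ d : ℕ, 1 ≤ d → ∃ C : ℝ, 1 ≤ C ∧ ∀ (L : ℕ) [NeZero L], 3 ≤ L →
  ∀ (t : ℝ) (r : ℕ), 0 < t → 1 ≤ r → r ≤ L →
  1 / 2 - C * r / Real.sqrt t ≤ stirExp (nnRate d L) t (fun g => Qb r g)

open Classical in
/-- BTL. The environment of the marked particles is good with large probability.
Proof. Take the maxima of the constants of KER, BAD and OMP (the bounds are monotone in `C`). If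
`Om σ q K ρ κ₀ ω` and `¬ viol ..`, then `Gd σ q K lam r ρ (2 κ₀) ω A` by OMR with `j = 0` (`rot n 0 ω`
agrees with `ω` on the coins `< n`; use BAS3 (7) or GDM). So
`PW (¬ Gd) ≤ E 1[¬ Om] + PW (Om ∧ viol)`: OMP and BAD. The last claim is MRK with GDM; its hypothesis on
`bd` follows from KER and GRN (as in BAD; `2 κ₀ + 1 ≤ Z`). -/
def S_BTL : Prop := ∀ d : ℕ, 3 ≤ d → ∃ (C m : ℕ), 1 ≤ C ∧ ∀ Z : ℕ, C ≤ Z →
  ∀ (L K lam r ρ κ₀ : ℕ) [NeZero L], lam ≤ Z → ρ ≤ Z → 2 * κ₀ + 1 ≤ Z →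
  (L : ℝ) ^ d ≤ Real.exp Z → Z ^ m ≤ r → 8 * Z ^ m ≤ L → Z ^ m ≤ K → K ≤ L ^ d →
  ∃ q₀ : ℕ, ∀ q ≥ q₀,
  ∀ σ : ℕ → (Fin d → ZMod L) × Fin d, Per σ → ∀ δ : ℝ, 1 ≤ δ * q → δ * q ≤ 2 →
  ∀ w : ℝ, 0 ≤ w → w < 1 → ∀ κ : ℝ,
  κ = C * ((K : ℝ) ^ (-(d / 2 : ℝ)) + 1 / ((L : ℝ) ^ d * (1 - w))) → (lam + 2) * κ ≤ 1 →
  PW (ed ∘ σ) (K * (q * ms d L)) δ w (fun ω A => ¬ Gd σ q K lam r ρ (2 * κ₀) ω A) ≤
    C * ((L : ℝ) ^ (2 * d) * Real.exp (-(ρ : ℝ)) + (L : ℝ) ^ (2 * d) * (1 / 2) ^ (κ₀ / C)) +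
    K * (L : ℝ) ^ (2 * d) * (lam + 1) * ((2 * r + 1 : ℕ) : ℝ) ^ d *
      (((2 * r + 1 : ℕ) : ℝ) ^ d * ((lam + 2) * κ)) ^ lam ∧
  ∀ x, PW (ed ∘ σ) (K * (q * ms d L)) δ w
    (fun ω A => x ∈ A ∧ Gd σ q K lam r ρ (2 * κ₀) ω A) ≤ κ

/-- TLC. Cycles are long, for circuits.
Proof. `EE (w ^ |cyc x|) = PW (x ∈ A) ≤ PW (x ∈ A ∧ Gd) + PW (¬ Gd)` (PEB). Let `C₁ ≥ 1`, `m₁` be from BTL,
`m₂ = 2 d m₁ + m₁ + 4`, `Z = ⌊K^(1/m₂)⌋`, `r = Z^m₁`, `lam = ρ = Z`, `κ₀ = (Z - 1) / 2`. `L^d ≥ K ≥ m`, so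
`L` is large, `K ≥ (log L)^m` with `m ≥ 2 m₂`, so `Z ≥ (log L)² / 2 ≥ C₂ log L` with `C₂ = 100 d C₁`, in
particular `L^d ≤ exp Z`. `8 Z^m₁ ≤ 8 K^(1/(2d)) ≤ 8 L^(1/2) ≤ L`.
`κ = C₁ (K^(-d/2) + 1/(L^d (1 - w))) ≤ 3 C₁ / K`,
`(Z + 2) κ ≤ 1` and `(2 r + 1)^d (Z + 2) κ ≤ 3^(d+2) C₁ Z^(d m₁ + 1) / K ≤ e^(-1)` because `K ≥ Z^m₂`. So
`PW (¬ Gd) ≤ C₁ L^(2d) (e^(-Z) + (1/2)^(κ₀ / C₁)) + K L^(2d) (Z + 1) (3 Z^m₁)^d e^(-Z) ≤ C L^(-d)`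
(`K ≤ L^d`), which is at most `C / (L^d (1 - w))`. -/
def S_TLC : Prop := ∀ d : ℕ, 3 ≤ d → ∃ (C : ℝ) (m : ℕ), 1 ≤ C ∧ ∀ (L K : ℕ) [NeZero L] (w : ℝ),
  m ≤ K → K ≤ L ^ d → (Real.log L) ^ m ≤ K → 0 ≤ w → w < 1 →
  1 / ((L : ℝ) ^ d * (1 - w)) ≤ 2 / K →
  ∃ q₀ : ℕ, ∀ q ≥ q₀, ∀ σ : ℕ → (Fin d → ZMod L) × Fin d, Per σ → ∀ δ : ℝ,
  1 ≤ δ * q → δ * q ≤ 2 → ∀ x,
  EE (K * (q * ms d L)) δ (fun ω => w ^ (cyc (gp (ed ∘ σ) ω (K * (q * ms d L))) x).card) ≤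
    C * ((K : ℝ) ^ (-(d / 2 : ℝ)) + 1 / ((L : ℝ) ^ d * (1 - w)))

/-- DEV. Boxes of side `√K / h` see the same fractions as the torus, for circuits.
Proof. `C₁, m₁` from BTL, `C_A, ε` from LAM (`h₀ = C_A`). Given `h`, `η`: let `η' ≤ 1/2` with
`24 η'² ≤ η / 8`. `w = 1 - K^(5/4) / L^d` (so `1/(L^d (1 - w)) = K^(-5/4)`, and `w ≥ 1/2` as
`K^(5/4) ≤ L^(15/8)`), `Z = ⌈C₂ log L⌉` with `C₂ = 100 d C₁`, `r₁ = ⌊K^(9/(8d))⌋`, `lam = ρ = Z`,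
`κ₀ = (Z - 1) / 2`, `m ≥ 100 d (m₁ + 1)`: every fixed multiple of `Z^(d (m₁ + 1) + 8 (d + 2))` is `≤ K`
for `L ≥ L₀`, all conditions of BTL and LAM hold. `κ = C₁ (K^(-d/2) + K^(-5/4)) ≤ 2 C₁ K^(-5/4)`,
`(2 r₁ + 1)^d (Z + 2) κ ≤ 3^d K^(9/8) 6 C₁ Z K^(-5/4) ≤ e^(-1)` for `L ≥ L₀`, so `PW (¬ Gd) ≤ L^(-1)`,
as in TLC. Let `B ω A = Gd σ q K Z r₁ Z (2 κ₀) ω A`, `Dm = Dmg (ed ∘ σ) ω A δ ε n`, `r = Nat.sqrt K / h`.
On `B`, DVA (`A ⊆ Dm`): `Qb r g - Qv g ≤ 3 ∑_z ∑_{x ∉ A} (s_z x)² + 24 η'² + 2 |A| / L^d`; otherwise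
`Qb r g - Qv g ≤ 1` (`|box z r| = r^d`). RES for each `z` with `φ ω A = phz r Dm z` (`Rmeas` by DME and
GDM, `phz` vanishes on `A`; redefine `φ` as `0` if `B` fails or use that the bound is needed only on
`B`), `Λ = C_A K^(d/2) / r^(2d)`: `PE (1_B ∑_{x ∉ A} (s_z x)²) ≤ (1 - w) Λ`; sum over `z`:
`L^d (1 - w) Λ ≤ C_A K^(5/4) K^(d/2) (2 h)^(2d) / K^d ≤ C_A (2 h)^(2d) K^(-1/4)`. Also
`PE (1_B |A| / L^d) = L^(-d) ∑_x PW (x ∈ A ∧ B) ≤ κ`. So (PEB) the expectation is at most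
`3 C_A (2 h)^(2d) K^(-1/4) + η / 8 + 2 κ + L^(-1) ≤ η` for `L ≥ L₀` (`K ≥ (log L)^m → ∞`). -/
def S_DEV : Prop := ∀ d : ℕ, 3 ≤ d → ∃ m h₀ : ℕ, ∀ h : ℕ, h₀ ≤ h → ∀ η : ℝ, 0 < η → ∃ L₀ : ℕ,
  ∀ (L K : ℕ) [NeZero L], L₀ ≤ L → (Real.log L) ^ m ≤ K → K ^ 2 ≤ L ^ 3 →
  ∃ q₀ : ℕ, ∀ q ≥ q₀, ∀ σ : ℕ → (Fin d → ZMod L) × Fin d, Per σ → ∀ δ : ℝ,
  1 ≤ δ * q → δ * q ≤ 2 →
  1 ≤ Nat.sqrt K / h ∧ Nat.sqrt K / h ≤ L ∧
  EE (K * (q * ms d L)) δ (fun ω => Qb (Nat.sqrt K / h) (gp (ed ∘ σ) ω (K * (q * ms d L))) -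
    Qv (gp (ed ∘ σ) ω (K * (q * ms d L)))) ≤ η

/-- MRG. Marginals of the coins.
Proof. Group the subsets `S` of `range n` by `T = {k < n' : ι k ∈ S}`: `S = ι(T) ∪ S'` with `S'` a subset
of the `n - n'` other points, `∑_{S'} δ^|S'| (1-δ)^(n-n'-|S'|) = 1`
(`Finset.sum_pow_mul_eq_add_pow`). -/
def S_MRG : Prop := ∀ (n n' : ℕ) (ι : ℕ → ℕ) (δ : ℝ) (F : (ℕ → Bool) → ℝ),
  (∀ k < n', ι k < n) → Set.InjOn ι (Set.Iio n') →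
  EE n δ (fun ω => F (fun k => if k < n' then ω (ι k) else false)) = EE n' δ F

open Classical in
/-- LOC. Short cycles do not see the size of the torus.
Proof. Let `j : (ℤ/L₀)^d → (ℤ/L)^d`, `(j x)_i = (x_i).valMinAbs`; it is a bijection of the balls
`bal 0 (R₀ + 2)` which preserves `td` there and the edges inside (`4 R₀ + 8 ≤ L₀`). Call an edge `(v, i)`
inner if both end points are in `bal 0 (R₀ + 1)`. Choose `σ₀` which enumerates in every sweep first the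
inner edges `p_0, ..., p_(s₁ - 1)` and then the others, and `σ` which enumerates first `j(p_0), ...`,
then the others. Let `E` be the event that there is `m` with `1 ≤ m ≤ n`, `g^m 0 = 0`, and that the
particles `g^i 0`, `i < m`, stay in `bal 0 R₀` during all steps. All steps which touch these particles are
inner, so by induction over the steps (for `i = 0, 1, ...`) their trajectories are the images under `j` of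
those in the other torus if the coins of the inner steps agree: with
`ι k = (k / s₁) * ms d L + k % s₁`, `n' = s * s₁` (and `ι₀` the same with `L₀`), `E` for the torus `L` is
`F(ω ∘ ι)` and `E` for the torus `L₀` is `F(ω ∘ ι₀)` with the same function `F` (for instance: `F` is the
event `E` for the circuit of the torus `L₀` which has only the inner steps `p_(k % s₁)`, `k < n'`).
By MRG both have the same probability. `E` for `L₀` implies `|cyc 0| ≤ n`. If for the torus `L`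
`|cyc 0| = m ≤ n` and every particle of `bal 0 R₀` has at most `D` jumps, then by induction
`g^i 0 ∈ bal 0 (i D)` and the particles `g^i 0`, `i < m`, stay in `bal 0 ((i + 1) D) ⊆ bal 0 R₀`: `E`. -/
def S_LOC : Prop := ∀ (d L L₀ R₀ : ℕ) [NeZero L] [NeZero L₀], 1 ≤ d → 4 * R₀ + 8 ≤ L₀ → L₀ ≤ L →
  ∃ (σ : ℕ → (Fin d → ZMod L) × Fin d) (σ₀ : ℕ → (Fin d → ZMod L₀) × Fin d), Per σ ∧ Per σ₀ ∧
  ∀ (s n D : ℕ) (δ : ℝ), 0 ≤ δ → δ ≤ 1 → n * D ≤ R₀ →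
  EE (s * ms d L) δ (fun ω => if (cyc (gp (ed ∘ σ) ω (s * ms d L)) 0).card ≤ n then 1 else 0) ≤
  EE (s * ms d L₀) δ (fun ω =>
    if (cyc (gp (ed ∘ σ₀) ω (s * ms d L₀)) 0).card ≤ n then 1 else 0) +
  EE (s * ms d L) δ (fun ω => if ∃ y ∈ bal (0 : Fin d → ZMod L) R₀,
    D < jumps (ed ∘ σ) ω 0 (s * ms d L) y then 1 else 0)

/-- LCS. The same for stirring.
Proof. Let `K = ⌊t⌋`, `δ = t / (K q)`, `s = K q`, so `s δ = t`, `1 ≤ δ q ≤ 2`. LOC, and TRO for both tori;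
`q → ∞`. Last term of LOC: if `y` has more than `D` jumps in the `K` units, it has more than
`D / K` (natural number division) jumps in one of them; JMP and the union bound over `y` and the units:
`≤ (2 R₀ + 1)^d K C e^(-(D / K)) ≤ (2 R₀ + 1)^d t C e e^(-D/t)`. Translations: the law is invariant
(Pool.Agent.Y998.CN.law_conj, nn_trans as in Pool.Agent.Q295.TP.Tor.gg_trans), so `x`, `x₀` may be moved
to `0`. -/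
def S_LCS : Prop := ∀ d : ℕ, 1 ≤ d → ∃ C : ℝ, 1 ≤ C ∧ ∀ (L L₀ R₀ : ℕ) [NeZero L] [NeZero L₀],
  4 * R₀ + 8 ≤ L₀ → L₀ ≤ L → ∀ (t : ℝ) (n D : ℕ), 1 ≤ t → n * D ≤ R₀ →
  ∀ (x : Fin d → ZMod L) (x₀ : Fin d → ZMod L₀),
  stirExp (nnRate d L) t (fun g => if (cyc g x).card ≤ n then 1 else 0) ≤
    stirExp (nnRate d L₀) t (fun g => if (cyc g x₀).card ≤ n then 1 else 0) +
    C * (2 * R₀ + 1) ^ d * t * Real.exp (-(D / t))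

/-- TLS. Cycles are long, for stirring.
Proof. `K = ⌊t⌋ ≤ L^d`, `δ = t / (K q)` (so `1 ≤ δ q ≤ 2` and `K q δ = t`), `w = 1 - 1/(2 N)`, so
`w^N ≥ 1/2` (Bernoulli) and `1/(L^d (1-w)) = 2 N / L^d ≤ 2 / t ≤ 2 / K`. TLC (with `m` doubled or so: `K ≥ t/2`,
`(log L)^m ≤ t` ..): `E 1[|cyc x| ≤ N] ≤ 2 E w^|cyc x| ≤ 2 C (K^(-d/2) + 2 N / L^d)`. TRO with
`F g = 1[|cyc g x| ≤ N]`, `q → ∞`. -/
def S_TLS : Prop := ∀ d : ℕ, 3 ≤ d → ∃ (C : ℝ) (m : ℕ), 1 ≤ C ∧ ∀ (L N : ℕ) [NeZero L] (t : ℝ),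
  m ≤ t → (Real.log L) ^ m ≤ t → 1 ≤ N → N * t ≤ (L : ℝ) ^ d → ∀ x : Fin d → ZMod L,
  stirExp (nnRate d L) t (fun g => if (cyc g x).card ≤ N then 1 else 0) ≤
    C * (t ^ (-(d / 2 : ℝ)) + N / (L : ℝ) ^ d)

/-- PDQ. Two uniform points are in the same cycle with probability about `1/2`.
Proof. Let `C` be from QLO; choose `h ≥ h₀` with `2 C / h ≤ ε / 4`. `K = ⌊t⌋`, `δ = t / (K q)`,
`r = Nat.sqrt K / h ≤ √t / h`. QLO: `stirExp t (Qb r) ≥ 1/2 - C / h`. DEV with `η = ε / 4` and TRO with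
`F = Qb r - Qv` (`|F| ≤ 1`), `q → ∞`: `stirExp t (Qb r - Qv) ≤ ε / 4`. (`K ≥ (log L)^m` if
`t ≥ (log L)^(m+1)` and `L` is large; `K² ≤ t² ≤ L³`.) -/
def S_PDQ : Prop := ∀ d : ℕ, 3 ≤ d → ∃ m : ℕ, ∀ ε : ℝ, 0 < ε → ∃ L₀ : ℕ, ∀ (L : ℕ) [NeZero L]
  (t : ℝ), L₀ ≤ L → (Real.log L) ^ m ≤ t → t ^ 2 ≤ (L : ℝ) ^ 3 →
  1 / 2 - ε ≤ stirExp (nnRate d L) t (fun g => Qv g)

end Q292.LC
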