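import Pool.Agent.Q292.LC.Stm7

/-!
# Project LC: the cycle of a point is exponentially long
-/

set_option autoImplicit false

namespace Q292.LC

open Finset Equiv Filter Topology
open Pool.Agent.Y998.ST

theorem cycleLen_eq {V : Type} [Fintype V] [DecidableEq V] (g : Perm V) (x : V) :
    cycleLen g x = (cyc g x).card := by
  classical
  unfold cycleLen cyc
  rw [Nat.card_eq_fintype_card, Fintype.card_subtype]

/-- asymptotics of the parameters -/
theorem tail_params (d : ℕ) (m : ℕ) (hm : 1 ≤ m) (C : ℝ) (hC : 1 ≤ C) : ∃ t₀ : ℝ, 1 ≤ t₀ ∧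
    ∀ t : ℝ, t₀ ≤ t → ∀ n : ℕ, 1 ≤ n → (n : ℝ) ≤ Real.exp (t ^ (1 / (2 * m) : ℝ)) →
    ∃ (L₀ R₀ D : ℕ), L₀ ≠ 0 ∧ (L₀ : ℝ) ≤ Real.exp (t ^ (1 / m : ℝ)) ∧
      Real.exp (t ^ (1 / m : ℝ)) - 1 ≤ L₀ ∧ 4 * R₀ + 8 ≤ L₀ ∧ n * D ≤ R₀ ∧
      (n : ℝ) * t ≤ (L₀ : ℝ) ^ (1 : ℕ) ∧ (n : ℝ) / L₀ ≤ t ^ (-(d / 2 : ℝ)) ∧
      C * (2 * R₀ + 1) ^ d * t * Real.exp (-(D / t)) ≤ t ^ (-(d / 2 : ℝ)) := by
  have hm0 : (0 : ℝ) < m := by exact_mod_cast hm
  -- s = t^(1/(2m)); exp s ≥ any power of t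
  have hs1 : (0 : ℝ) < 1 / (2 * m) := by positivity
  have hlim : Tendsto (fun t : ℝ => t ^ (1 / (2 * m) : ℝ)) atTop atTop := tendsto_rpow_atTop hs1
  -- in terms of `s`: t = s^(2m)
  have hA : Tendsto (fun s : ℝ => s ^ (2 * m * (d + 3)) / Real.exp s) atTop (𝓝 0) := by
    have := Real.tendsto_pow_mul_exp_neg_atTop_nhds_zero (2 * m * (d + 3))
    refine this.congr fun s => ?_
    rw [Real.exp_neg, div_eq_mul_inv]
  have hE : Tendsto (fun s : ℝ => Real.exp s) atTop atTop := Real.tendsto_exp_atTop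
  have hB : Tendsto (fun s : ℝ => s ^ (2 * m * (d + 3)) / Real.exp s) atTop (𝓝 0) := hA
  have ev : ∀ᶠ s : ℝ in atTop, 1 ≤ s ∧ s ^ (2 * m * (d + 3)) ≤ Real.exp s / 64 ∧ 64 ≤ Real.exp s ∧
      2 ≤ s ∧ Real.log C + 2 ≤ s ∧ 16 * (d + 3 : ℝ) ≤ s := by
    have e1 : ∀ᶠ s : ℝ in atTop, s ^ (2 * m * (d + 3)) / Real.exp s < 1 / 64 :=
      hA.eventually_lt_const (by norm_num)
    filter_upwards [e1, eventually_ge_atTop (1 : ℝ), hE.eventually_ge_atTop 64,
      eventually_ge_atTop (2 : ℝ), eventually_ge_atTop (Real.log C + 2),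
      eventually_ge_atTop (16 * (d + 3 : ℝ))] with s h1 h2 h3 h4 h5 h6
    refine ⟨h2, ?_, h3, h4, h5, h6⟩
    rw [div_lt_iff₀ (Real.exp_pos s)] at h1
    linarith
  obtain ⟨t₁, h1⟩ := eventually_atTop.1 (hlim.eventually ev)
  refine ⟨max t₁ 1, le_max_right _ _, fun t ht n hn1 hn => ?_⟩
  have ht1 : 1 ≤ t := (le_max_right _ _).trans ht
  have ht0 : 0 < t := by linarith
  obtain ⟨hs, hpow, hexp64, hs2, hsC, hsd⟩ := h1 t ((le_max_left _ _).trans ht)
  obtain ⟨s, hsdef⟩ : ∃ s : ℝ, s = t ^ (1 / (2 * m) : ℝ) := ⟨_, rfl⟩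
  rw [← hsdef] at hs hpow hexp64 hs2 hsC hsd hn
  have hst : s ^ (2 * m) = t := by
    rw [hsdef, ← Real.rpow_natCast, ← Real.rpow_mul ht0.le]
    push_cast
    rw [show 1 / (2 * (m : ℝ)) * (2 * m) = 1 by field_simp, Real.rpow_one]
  have hs2' : s ^ 2 = t ^ (1 / m : ℝ) := by
    rw [hsdef, ← Real.rpow_natCast, ← Real.rpow_mul ht0.le]
    congr 1
    push_cast
    field_simp
  have hs0 : 0 < s := by linarith
  obtain ⟨E, hEdef⟩ : ∃ E : ℝ, E = Real.exp s := ⟨_, rfl⟩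
  rw [← hEdef] at hpow hexp64 hn
  have hE0 : 0 < E := by linarith
  have htpow : ∀ k : ℕ, k ≤ d + 3 → t ^ k ≤ E / 64 := by
    intro k hk
    refine le_trans ?_ hpow
    rw [← hst, ← pow_mul]
    exact pow_le_pow_right₀ hs (Nat.mul_le_mul_left _ hk)
  -- exp (s^2) = E^s ≥ E^8
  have hEs : ∀ k : ℕ, (k : ℝ) ≤ s → E ^ k ≤ Real.exp (t ^ (1 / m : ℝ)) := by
    intro k hk
    rw [← hs2', hEdef, ← Real.exp_nat_mul]
    apply Real.exp_le_exp.2
    nlinarith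
  have h16 : (16 : ℝ) ≤ s := by
    have : (0 : ℝ) ≤ d := by positivity
    nlinarith
  obtain ⟨X, hX⟩ : ∃ X : ℝ, X = Real.exp (t ^ (1 / m : ℝ)) := ⟨_, rfl⟩
  have hX8 : E ^ 8 ≤ X := by rw [hX]; exact hEs 8 (by push_cast; linarith)
  have hXd : X ≤ Real.exp (s ^ 2) := by rw [hX, hs2']
  obtain ⟨L₀, hL₀⟩ : ∃ L₀ : ℕ, L₀ = ⌊X⌋₊ := ⟨_, rfl⟩
  have hX0 : 0 < X := by rw [hX]; exact Real.exp_pos _
  have hLX : (L₀ : ℝ) ≤ X := by rw [hL₀]; exact Nat.floor_le hX0.le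
  have hLX' : X - 1 < L₀ := by rw [hL₀]; have := Nat.lt_floor_add_one X; linarith
  have hE1 : 1 ≤ E := by linarith
  have hEE : ∀ k : ℕ, 1 ≤ k → E ≤ E ^ k := fun k hk => le_self_pow₀ hE1 (by omega)
  have hE7 : 64 * E ^ 7 ≤ E ^ 8 := by
    have : E ^ 8 = E * E ^ 7 := by ring
    rw [this]
    exact mul_le_mul_of_nonneg_right hexp64 (by positivity)
  have hE71 : 1 ≤ E ^ 7 := one_le_pow₀ hE1
  have hLE : 32 * E ^ 7 ≤ L₀ := by linarith
  obtain ⟨R₀, hR₀⟩ : ∃ R₀ : ℕ, R₀ = (L₀ - 8) / 4 := ⟨_, rfl⟩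
  have hL8 : 8 ≤ L₀ := by
    have : (8 : ℝ) ≤ L₀ := by linarith
    exact_mod_cast this
  have hRle : 4 * R₀ + 8 ≤ L₀ := by omega
  have hRge : (L₀ : ℝ) ≤ 4 * R₀ + 12 := by
    have : L₀ ≤ 4 * R₀ + 12 := by omega
    exact_mod_cast this
  obtain ⟨D, hD⟩ : ∃ D : ℕ, D = R₀ / n := ⟨_, rfl⟩
  have hnD : n * D ≤ R₀ := by rw [hD]; exact Nat.mul_div_le R₀ n
  have hn0 : (0 : ℝ) < n := by exact_mod_cast hn1
  have hRE : 4 * E ^ 7 ≤ R₀ := by
    have : 12 ≤ 16 * E ^ 7 := by linarith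
    linarith
  have hDge : E ^ 6 ≤ D := by
    have e1 : (R₀ : ℝ) < n * (D + 1) := by
      have : R₀ < n * (D + 1) := by
        rw [hD]
        have h := Nat.lt_mul_div_succ R₀ hn1
        simpa using h
      exact_mod_cast this
    have e2 : (R₀ : ℝ) < E * (D + 1) := lt_of_lt_of_le e1
      (mul_le_mul_of_nonneg_right hn (by positivity))
    have e3 : 4 * E ^ 7 < E * (D + 1) := lt_of_le_of_lt hRE e2
    have e4 : E * (4 * E ^ 6) < E * (D + 1) := by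
      calc E * (4 * E ^ 6) = 4 * E ^ 7 := by ring
        _ < _ := e3
    have e5 := lt_of_mul_lt_mul_left e4 hE0.le
    have e6 : 1 ≤ E ^ 6 := one_le_pow₀ hE1
    linarith
  -- t^(-d/2) ≥ 1 / t^d
  have htd : 1 / t ^ d ≤ t ^ (-(d / 2 : ℝ)) := by
    rw [Real.rpow_neg ht0.le, one_div, ← Real.rpow_natCast]
    apply inv_anti₀ (by positivity)
    exact Real.rpow_le_rpow_of_exponent_le ht1 (by
      have : (0 : ℝ) ≤ d := by positivity
      linarith)
  have htd64 : t ^ (d + 3) ≤ E := by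
    have := htpow (d + 3) le_rfl
    linarith
  have htd1 : t ^ d ≤ E := (pow_le_pow_right₀ ht1 (by omega)).trans htd64
  have htt : t ≤ E := by
    calc t = t ^ 1 := (pow_one t).symm
      _ ≤ t ^ (d + 3) := pow_le_pow_right₀ ht1 (by omega)
      _ ≤ E := htd64
  have hE2 : E ^ 2 ≤ E ^ 7 := pow_le_pow_right₀ hE1 (by norm_num)
  refine ⟨L₀, R₀, D, by omega, ?_, ?_, hRle, hnD, ?_, ?_, ?_⟩
  · rw [← hX]; exact hLX
  · rw [← hX]; exact hLX'.le
  · rw [pow_one]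
    calc (n : ℝ) * t ≤ E * E := mul_le_mul hn htt ht0.le hE0.le
      _ = E ^ 2 := by ring
      _ ≤ E ^ 7 := hE2
      _ ≤ L₀ := by linarith
  · refine le_trans ?_ htd
    have hL0 : (0 : ℝ) < L₀ := by linarith
    rw [div_le_div_iff₀ hL0 (by positivity), one_mul]
    calc (n : ℝ) * t ^ d ≤ E * E := mul_le_mul hn htd1 (by positivity) hE0.le
      _ = E ^ 2 := by ring
      _ ≤ E ^ 7 := hE2
      _ ≤ L₀ := by linarith
  · refine le_trans ?_ htd
    rw [le_div_iff₀ (by positivity)]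
    have e1 : (2 * (R₀ : ℝ) + 1) ≤ X := by
      have : (4 * R₀ + 8 : ℝ) ≤ L₀ := by exact_mod_cast hRle
      linarith
    have e2 : (2 * (R₀ : ℝ) + 1) ^ d ≤ Real.exp (d * s ^ 2) := by
      calc (2 * (R₀ : ℝ) + 1) ^ d ≤ X ^ d := pow_le_pow_left₀ (by positivity) e1 d
        _ ≤ (Real.exp (s ^ 2)) ^ d := pow_le_pow_left₀ hX0.le hXd d
        _ = Real.exp (d * s ^ 2) := by rw [← Real.exp_nat_mul]
    have e3 : C ≤ Real.exp s := by
      have : Real.log C ≤ s := by linarith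
      calc C = Real.exp (Real.log C) := (Real.exp_log (by linarith)).symm
        _ ≤ _ := Real.exp_le_exp.2 this
    have e4 : t * t ^ d ≤ Real.exp s := by
      rw [← hEdef]
      calc t * t ^ d = t ^ (d + 1) := by ring
        _ ≤ t ^ (d + 3) := pow_le_pow_right₀ ht1 (by omega)
        _ ≤ E := htd64
    -- D / t ≥ E^5 ≥ s^2 (d+2)
    have e5 : E ^ 5 ≤ D / t := by
      rw [le_div_iff₀ ht0]
      calc E ^ 5 * t ≤ E ^ 5 * E := mul_le_mul_of_nonneg_left htt (by positivity)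
        _ = E ^ 6 := by ring
        _ ≤ D := hDge
    have e6 : s ≤ E := by
      rw [hEdef]
      have := Real.add_one_le_exp s
      linarith
    have e7 : d * s ^ 2 + 2 * s ≤ E ^ 5 := by
      have f1 : (d : ℝ) ≤ s := by
        have : (0 : ℝ) ≤ d := by positivity
        nlinarith
      have f2 : d * s ^ 2 + 2 * s ≤ s ^ 3 + s ^ 2 := by nlinarith [sq_nonneg s]
      have f3 : s ^ 3 ≤ E ^ 3 := pow_le_pow_left₀ hs0.le e6 3
      have f4 : s ^ 2 ≤ E ^ 2 := pow_le_pow_left₀ hs0.le e6 2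
      have f5 : E ^ 2 ≤ E ^ 3 := pow_le_pow_right₀ hE1 (by norm_num)
      have f6 : 2 * E ^ 3 ≤ E ^ 5 := by
        have : E ^ 5 = E ^ 2 * E ^ 3 := by ring
        rw [this]
        apply mul_le_mul_of_nonneg_right _ (by positivity)
        nlinarith
      linarith
    calc C * (2 * R₀ + 1) ^ d * t * Real.exp (-(D / t)) * t ^ d
        = C * (2 * R₀ + 1) ^ d * (t * t ^ d) * Real.exp (-(D / t)) := by ring
      _ ≤ Real.exp s * Real.exp (d * s ^ 2) * Real.exp s * Real.exp (-(D / t)) := by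
          gcongr
      _ = Real.exp (s + d * s ^ 2 + s - D / t) := by
          rw [← Real.exp_add, ← Real.exp_add, ← Real.exp_add]; ring_nf
      _ ≤ Real.exp 0 := Real.exp_le_exp.2 (by linarith)
      _ = 1 := Real.exp_zero

/-- The cycle of a point: upper bound for its tail. -/
theorem tail (hT : S_TLS) (hL : S_LCS) (d : ℕ) (hd : 3 ≤ d) : ∃ (C c t₀ : ℝ) (m : ℕ),
    0 < c ∧ 1 ≤ t₀ ∧ 1 ≤ C ∧ ∀ (t : ℝ), t₀ ≤ t → ∀ (L : ℕ) [NeZero L] (n : ℕ), 1 ≤ n →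
    (n : ℝ) * t ≤ (L : ℝ) ^ d → ((n : ℝ) ≤ Real.exp (t ^ c) ∨ (Real.log L) ^ m ≤ t) →
    ∀ x : Fin d → ZMod L,
    stirExp (nnRate d L) t (fun g => if cycleLen g x ≤ n then 1 else 0) ≤
      C * (t ^ (-(d / 2 : ℝ)) + n / (L : ℝ) ^ d) := by
  obtain ⟨C₁, m, hC₁, h1⟩ := hT d hd
  obtain ⟨C₂, hC₂, h2⟩ := hL d (by omega)
  obtain ⟨m', hm'⟩ : ∃ m' : ℕ, m' = m + 1 := ⟨_, rfl⟩
  obtain ⟨t₁, ht₁, h3⟩ := tail_params d m' (by omega) C₂ hC₂
  refine ⟨2 * C₁ + 1, 1 / (2 * m'), max t₁ (max (m : ℝ) 3 + 2), m', by rw [hm']; positivity,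
    ht₁.trans (le_max_left _ _), by linarith, ?_⟩
  intro t ht L _ n hn hnt hcase x
  have ht1 : t₁ ≤ t := (le_max_left _ _).trans ht
  have htm : (m : ℝ) ≤ t := by
    have : (max (m : ℝ) 3 + 2) ≤ t := (le_max_right _ _).trans ht
    have h4 : (m : ℝ) ≤ max (m : ℝ) 3 := le_max_left _ _
    linarith
  have ht3 : (3 : ℝ) ≤ t := by
    have : (max (m : ℝ) 3 + 2) ≤ t := (le_max_right _ _).trans ht
    have h4 : (3 : ℝ) ≤ max (m : ℝ) 3 := le_max_right _ _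
    linarith
  have ht0 : 0 < t := by linarith
  have htp : 0 ≤ t ^ (-(d / 2 : ℝ)) := by positivity
  have hm'0 : (0 : ℝ) < m' := by rw [hm']; positivity
  have hL0 : (0 : ℝ) < L := by exact_mod_cast Nat.pos_of_ne_zero (NeZero.ne L)
  simp only [cycleLen_eq]
  -- the polylogarithmic case
  have hpoly : ∀ (L' : ℕ) [NeZero L'], (Real.log L') ^ m' ≤ t → (n : ℝ) * t ≤ (L' : ℝ) ^ d →
      ∀ x' : Fin d → ZMod L',
      stirExp (nnRate d L') t (fun g => if (cyc g x').card ≤ n then 1 else 0) ≤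
      C₁ * (t ^ (-(d / 2 : ℝ)) + n / (L' : ℝ) ^ d) := by
    intro L' _ hlog hnt' x'
    refine h1 L' n t htm ?_ hn hnt' x'
    by_cases h : Real.log L' ≤ 1
    · have hlog0 : 0 ≤ Real.log L' := by
        apply Real.log_nonneg
        exact_mod_cast Nat.one_le_iff_ne_zero.2 (NeZero.ne L')
      have : (Real.log L') ^ m ≤ 1 := pow_le_one₀ hlog0 h
      linarith
    · rw [not_le] at h
      refine le_trans ?_ hlog
      exact pow_le_pow_right₀ h.le (by omega)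
  by_cases hbig : (Real.log L) ^ m' ≤ t
  · refine (hpoly L hbig hnt x).trans ?_
    have : 0 ≤ t ^ (-(d / 2 : ℝ)) + n / (L : ℝ) ^ d := by positivity
    nlinarith
  · have hn2 : (n : ℝ) ≤ Real.exp (t ^ (1 / (2 * m') : ℝ)) := by
      rcases hcase with h | h
      · exact h
      · exact absurd h hbig
    obtain ⟨L₀, R₀, D, hL₀, hLe, hLge, hR, hD, hnt0, hnL, herr⟩ := h3 t ht1 n hn hn2
    haveI : NeZero L₀ := ⟨hL₀⟩
    have hL00 : (1 : ℝ) ≤ L₀ := by exact_mod_cast Nat.one_le_iff_ne_zero.2 hL₀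
    -- L₀ ≤ L
    have hLL : L₀ ≤ L := by
      rw [not_le] at hbig
      have hlog0 : 0 ≤ Real.log L := by
        apply Real.log_nonneg
        exact_mod_cast Nat.one_le_iff_ne_zero.2 (NeZero.ne L)
      have e1 : t ^ (1 / m' : ℝ) ≤ Real.log L := by
        have e2 : t ^ (1 / m' : ℝ) ≤ ((Real.log L) ^ m') ^ (1 / m' : ℝ) :=
          Real.rpow_le_rpow ht0.le hbig.le (by positivity)
        refine e2.trans (le_of_eq ?_)
        rw [← Real.rpow_natCast, ← Real.rpow_mul hlog0]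
        rw [show (m' : ℝ) * (1 / m') = 1 by field_simp, Real.rpow_one]
      have e3 : (L₀ : ℝ) ≤ L := by
        calc (L₀ : ℝ) ≤ Real.exp (t ^ (1 / m' : ℝ)) := hLe
          _ ≤ Real.exp (Real.log L) := Real.exp_le_exp.2 e1
          _ = L := Real.exp_log hL0
      exact_mod_cast e3
    have hlogL₀ : (Real.log L₀) ^ m' ≤ t := by
      have e1 : Real.log L₀ ≤ t ^ (1 / m' : ℝ) := by
        rw [← Real.log_exp (t ^ (1 / m' : ℝ))]
        exact Real.log_le_log (by linarith) hLe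
      have e2 : (Real.log L₀) ^ m' ≤ (t ^ (1 / m' : ℝ)) ^ m' :=
        pow_le_pow_left₀ (Real.log_nonneg hL00) e1 m'
      refine e2.trans (le_of_eq ?_)
      rw [← Real.rpow_natCast, ← Real.rpow_mul ht0.le]
      rw [show 1 / (m' : ℝ) * m' = 1 by field_simp, Real.rpow_one]
    have hpw : (L₀ : ℝ) ^ (1 : ℕ) ≤ (L₀ : ℝ) ^ d := pow_le_pow_right₀ hL00 (by omega)
    have h5 := hpoly L₀ hlogL₀ (hnt0.trans hpw) 0
    have h6 := h2 L L₀ R₀ hR hLL t n D (by linarith) hD x 0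
    refine h6.trans ?_
    have h7 : (n : ℝ) / (L₀ : ℝ) ^ d ≤ t ^ (-(d / 2 : ℝ)) := by
      refine le_trans ?_ hnL
      apply div_le_div_of_nonneg_left (by positivity) (by linarith)
      simpa using hpw
    have h8 : 0 ≤ (n : ℝ) / (L : ℝ) ^ d := by positivity
    have h9 : C₁ * (t ^ (-(d / 2 : ℝ)) + n / (L₀ : ℝ) ^ d) ≤
        C₁ * (2 * t ^ (-(d / 2 : ℝ))) := by
      apply mul_le_mul_of_nonneg_left _ (by linarith)
      linarith
    have h10 : 0 ≤ (2 * C₁ + 1) * (n / (L : ℝ) ^ d) := by positivity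
    nlinarith [h5, h9, herr, h10]

/-- lower bound: fixed points -/
theorem tail_low (hH : S_HKL) (d : ℕ) (hd : 1 ≤ d) : ∃ c : ℝ, 0 < c ∧ ∀ (L : ℕ) [NeZero L],
    3 ≤ L → ∀ t : ℝ, 1 ≤ t → t ≤ 2 * (L : ℝ) ^ 2 → ∀ (n : ℕ), 1 ≤ n → ∀ x : Fin d → ZMod L,
    c * t ^ (-(d / 2 : ℝ)) ≤
      stirExp (nnRate d L) t (fun g => if cycleLen g x ≤ n then 1 else 0) := by
  obtain ⟨C, hC, h⟩ := hH d hd
  refine ⟨1 / C, by positivity, fun L _ hL t ht htL n hn x => ?_⟩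
  have h1 := h L hL t ht htL x x (by
    have : td x x = 0 := by unfold td; simp
    rw [this]
    push_cast
    positivity)
  have h2 : qq (nnRate d L) t x x = hop (nnRate d L) t x x := rfl
  rw [h2] at h1
  calc 1 / C * t ^ (-(d / 2 : ℝ)) = t ^ (-(d / 2 : ℝ)) / C := by ring
    _ ≤ hop (nnRate d L) t x x := h1
    _ ≤ _ := by
      unfold hop
      refine exp_mono Pool.Agent.Y998.ST.nn_nonneg (by linarith) fun g => ?_
      by_cases hg : g x = x
      · have : cycleLen g x ≤ n := by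
          rw [cycleLen_eq]
          have e1 : cyc g x = {x} := by
            unfold cyc
            ext y
            rw [mem_filter, mem_singleton]
            constructor
            · rintro ⟨_, k, hk⟩
              rw [← hk]
              exact Equiv.Perm.zpow_apply_eq_self_of_apply_eq_self hg k
            · rintro rfl
              exact ⟨mem_univ _, Perm.SameCycle.refl _ _⟩
          rw [e1, card_singleton]
          exact hn
        rw [if_pos hg, if_pos this]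
      · rw [if_neg hg]
        split_ifs <;> norm_num

end Q292.LC
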